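import Pool.Agent.H609R2.Line.Defs2

/-!
# Composition of reductions; `#SAT` from 0-1 permanents (task C)
-/

namespace Pool.Agent.H609R2.Line

open Pool.Agent.H549R2.Convex Pool.Agent.H549R2.PM Pool.Agent.NPC
  Pool.Agent.NPC.Cnt Pool.Agent.NPC.H549Convex Pool.Agent.NPC.H549PM

section Lists

variable {α β : Type} [TEnc α] [TEnc β]

theorem take_eq_zipIdx {β : Type} (l : List β) : ∀ (n k : ℕ), ((l.zipIdx k).filter
    (fun p => decide (p.2 < n + k))).map (fun p => p.1) = l.take n := by
  induction l with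
  | nil => intro n k; simp
  | cons b l ih =>
    intro n k
    rw [List.zipIdx_cons, List.filter_cons]
    cases n with
    | zero =>
      have h1 : ¬ (k < 0 + k) := by omega
      simp only [h1, decide_false, Bool.false_eq_true, if_false, List.take_zero,
        List.map_eq_nil_iff, List.filter_eq_nil_iff, decide_eq_true_eq]
      rintro ⟨x, i⟩ hx
      have := List.le_snd_of_mem_zipIdx hx
      simp only at this ⊢
      omega
    | succ n =>
      have h1 : k < n + 1 + k := by omega
      simp only [h1, decide_true, if_true, List.map_cons, List.take_succ_cons]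
      have h2 := ih n (k + 1)
      have e : n + (k + 1) = n + 1 + k := by omega
      rw [e] at h2
      rw [h2]

theorem poly_take {l : α → List β} {n : α → ℕ} (hl : NPC.Poly l) (hn : NPC.Poly n) :
    NPC.Poly (fun a => (l a).take (n a)) := by
  have h1 : NPC.Poly (fun a => ((l a).zipIdx.filter (fun p => decide (p.2 < n a))).map
      (fun p => p.1)) := by
    refine NPC.Poly.map (F := fun (_ : α) (p : β × ℕ) => p.1) ?_ (NPC.Poly.fst (NPC.Poly.snd NPC.Poly.id))
    exact NPC.Poly.filter (p := fun a (p : β × ℕ) => decide (p.2 < n a)) (NPC.Poly.zipIdx hl)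
      (NPC.Poly.decide_lt (NPC.Poly.snd (NPC.Poly.snd NPC.Poly.id)) (hn.comp (NPC.Poly.fst NPC.Poly.id)))
  exact h1.congr fun a => take_eq_zipIdx (l a) (n a) 0

theorem poly_drop {l : α → List β} {n : α → ℕ} (hl : NPC.Poly l) (hn : NPC.Poly n) :
    NPC.Poly (fun a => (l a).drop (n a)) := by
  have h1 : NPC.Poly (fun a => ((l a).reverse.take ((l a).length - n a)).reverse) :=
    NPC.Poly.reverse (poly_take (NPC.Poly.reverse hl) (NPC.Poly.sub (NPC.Poly.length hl) hn))
  refine h1.congr fun a => ?_
  rw [List.take_reverse, List.reverse_reverse]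
  by_cases h : n a ≤ (l a).length
  · congr 1
    omega
  · rw [List.drop_eq_nil_of_le (by omega : (l a).length ≤ n a)]
    apply List.drop_eq_nil_of_le
    omega

end Lists

/-- C1 -/
theorem compose {α : Type} [TEnc α] (qs : CNF ℕ → List (List (List Bool)))
    (post : CNF ℕ × List ℕ → ℕ) (hqs : NPC.Poly qs) (hpost : NPC.Poly post) (f : List (List Bool) → ℕ)
    (h : ∀ φ, satCount φ = post (φ, (qs φ).map f))
    (qs2 : List (List Bool) → List α) (post2 : List (List Bool) × List ℕ → ℕ)
    (hqs2 : NPC.Poly qs2) (hpost2 : NPC.Poly post2) :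
    ∃ (qs' : CNF ℕ → List α) (post' : CNF ℕ × List ℕ → ℕ), NPC.Poly qs' ∧ NPC.Poly post' ∧
      ∀ g : α → ℕ, (∀ φ, ∀ b ∈ qs φ, f b = post2 (b, (qs2 b).map g)) →
        ∀ φ, satCount φ = post' (φ, (qs' φ).map g) := by
  refine ⟨fun φ => (qs φ).flatMap qs2, fun p => post (p.1, (List.range (qs p.1).length).map
    (fun t => post2 ((qs p.1).getD t [], (p.2.drop (((qs p.1).take t).flatMap qs2).length).take
      (qs2 ((qs p.1).getD t [])).length))), ?_, ?_, ?_⟩
  · exact NPC.Poly.flatMap (F := fun (_ : CNF ℕ) b => qs2 b) hqs (hqs2.comp (NPC.Poly.snd NPC.Poly.id))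
  · have hq1 : NPC.Poly (fun x : (CNF ℕ × List ℕ) × ℕ => qs x.1.1) :=
      hqs.comp (NPC.Poly.fst (NPC.Poly.fst NPC.Poly.id))
    have hb : NPC.Poly (fun x : (CNF ℕ × List ℕ) × ℕ => (qs x.1.1).getD x.2 []) :=
      NPC.Poly.getD hq1 (NPC.Poly.snd NPC.Poly.id) (NPC.Poly.const [])
    have hst : NPC.Poly (fun x : (CNF ℕ × List ℕ) × ℕ => (((qs x.1.1).take x.2).flatMap qs2).length) :=
      NPC.Poly.length (NPC.Poly.flatMap (F := fun (_ : (CNF ℕ × List ℕ) × ℕ) b => qs2 b)
        (poly_take hq1 (NPC.Poly.snd NPC.Poly.id)) (hqs2.comp (NPC.Poly.snd NPC.Poly.id)))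
    have hln : NPC.Poly (fun x : (CNF ℕ × List ℕ) × ℕ => (qs2 ((qs x.1.1).getD x.2 [])).length) :=
      NPC.Poly.length (hqs2.comp (f := fun x : (CNF ℕ × List ℕ) × ℕ => (qs x.1.1).getD x.2 []) hb)
    have hblk : NPC.Poly (fun x : (CNF ℕ × List ℕ) × ℕ =>
        (x.1.2.drop (((qs x.1.1).take x.2).flatMap qs2).length).take
          (qs2 ((qs x.1.1).getD x.2 [])).length) :=
      poly_take (poly_drop (NPC.Poly.snd (NPC.Poly.fst NPC.Poly.id)) hst) hln
    have hin : NPC.Poly (fun x : (CNF ℕ × List ℕ) × ℕ => post2 ((qs x.1.1).getD x.2 [],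
        (x.1.2.drop (((qs x.1.1).take x.2).flatMap qs2).length).take
          (qs2 ((qs x.1.1).getD x.2 [])).length)) :=
      hpost2.comp (f := fun x : (CNF ℕ × List ℕ) × ℕ => ((qs x.1.1).getD x.2 [],
        (x.1.2.drop (((qs x.1.1).take x.2).flatMap qs2).length).take
          (qs2 ((qs x.1.1).getD x.2 [])).length)) (NPC.Poly.pair hb hblk)
    have hmap := NPC.Poly.map (l := fun p : CNF ℕ × List ℕ => List.range (qs p.1).length)
      (F := fun (p : CNF ℕ × List ℕ) t => post2 ((qs p.1).getD t [],
        (p.2.drop (((qs p.1).take t).flatMap qs2).length).take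
          (qs2 ((qs p.1).getD t [])).length))
      (NPC.Poly.range_length (hqs.comp (NPC.Poly.fst NPC.Poly.id))) hin
    exact hpost.comp (f := fun p : CNF ℕ × List ℕ => (p.1, (List.range (qs p.1).length).map
      (fun t => post2 ((qs p.1).getD t [], (p.2.drop (((qs p.1).take t).flatMap qs2).length).take
        (qs2 ((qs p.1).getD t [])).length)))) (NPC.Poly.pair (NPC.Poly.fst NPC.Poly.id) hmap)
  · intro g hg φ
    rw [h φ]
    simp only
    congr 2
    apply List.ext_getElem
    · simp
    · intro t h1 h2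
      rw [List.length_map] at h1
      rw [List.getElem_map, List.getElem_map, List.getElem_range]
      rw [List.getD_eq_getElem _ _ h1, hg φ _ (List.getElem_mem h1)]
      congr 2
      have h3 : qs φ = (qs φ).take t ++ (qs φ)[t] :: (qs φ).drop (t + 1) := by
        rw [← List.drop_eq_getElem_cons h1, List.take_append_drop]
      have h4 : (qs φ).flatMap qs2 = ((qs φ).take t).flatMap qs2 ++ (qs2 (qs φ)[t] ++
          ((qs φ).drop (t + 1)).flatMap qs2) := by
        conv_lhs => rw [h3]
        rw [List.flatMap_append, List.flatMap_cons]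
      rw [h4, List.map_append, List.map_append]
      have e1 : (((qs φ).take t).flatMap qs2).length =
          ((((qs φ).take t).flatMap qs2).map g).length := by rw [List.length_map]
      rw [e1, List.drop_left]
      have e2 : (qs2 (qs φ)[t]).length = ((qs2 (qs φ)[t]).map g).length := by
        rw [List.length_map]
      rw [e2, List.take_left]

/-- the post-processing of the reduction from `#SAT` to permanents -/
def postP (p : CNF ℕ × List ℕ) : ℕ :=
  alt (qF p.1) (fun t => p.2.getD t 0 / (kF p.1).factorial) / (2 ^ qF p.1 * (qF p.1).factorial)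

/-- the queries of the reduction from `#SAT` to permanents -/
def qsP (φ : CNF ℕ) : List (List (List Bool)) :=
  (List.range (qF φ + 1)).map (fun t => MF φ (tF (φ, t)))

/-- C2: the reduction of helper549 from `#SAT` to the 0-1 permanent -/
theorem sat_perm : ∃ (qs : CNF ℕ → List (List (List Bool))) (post : CNF ℕ × List ℕ → ℕ),
    NPC.Poly qs ∧ NPC.Poly post ∧ (∀ φ, ∀ A ∈ qs φ, ∀ r ∈ A, r.length = A.length) ∧
      ∀ φ, satCount φ = post (φ, (qs φ).map F) := by
  refine ⟨qsP, postP, ?_, ?_, ?_, ?_⟩
  · exact NPC.Poly.map (F := fun (φ : CNF ℕ) t => MF φ (tF (φ, t)))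
      ((UPoly.add qF_upoly (UPoly.const 1)).range) MF_poly
  · have hq : UPoly (fun p : CNF ℕ × List ℕ => qF p.1) := qF_upoly.comp (NPC.Poly.fst NPC.Poly.id)
    have h1 : NPC.Poly (fun z : (CNF ℕ × List ℕ) × ℕ => z.1.2.getD z.2 0 / (kF z.1.1).factorial) :=
      NPC.Poly.div (NPC.Poly.getD (NPC.Poly.snd (NPC.Poly.fst NPC.Poly.id)) (NPC.Poly.snd NPC.Poly.id) (NPC.Poly.const 0))
        (upoly_fact (kF_upoly.comp (NPC.Poly.fst (NPC.Poly.fst NPC.Poly.id))))
    exact NPC.Poly.div (alt_poly (g := fun (p : CNF ℕ × List ℕ) t =>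
      p.2.getD t 0 / (kF p.1).factorial) hq h1) (NPC.Poly.mul (upoly_pow2 hq) (upoly_fact hq))
  · intro φ A hA
    rw [qsP, List.mem_map] at hA
    obtain ⟨t, ht, rfl⟩ := hA
    exact MF_square φ _ (Nat.min_le_right _ _)
  · intro φ
    have h1 : alt (qF φ) (fun t => ((qsP φ).map F).getD t 0 / (kF φ).factorial) =
        2 ^ qF φ * (qF φ).factorial * satCount φ := by
      rw [alt_congr _ _ (fun t => F (MF φ t) / (kF φ).factorial)]
      · apply alt_eq
        have h2 := sat_eq φ
        push_cast
        push_cast at h2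
        exact h2
      · intro t ht
        have hl : t < ((qsP φ).map F).length := by
          rw [List.length_map, qsP, List.length_map, List.length_range]
          omega
        rw [List.getD_eq_getElem _ _ hl, List.getElem_map]
        have h3 : (qsP φ)[t]'(by simpa using hl) = MF φ t := by
          simp only [qsP, List.getElem_map, List.getElem_range]
          rw [tF]
          congr 1
          exact Nat.min_eq_left ht
        rw [h3]
    rw [postP]
    simp only
    rw [h1, Nat.mul_div_cancel_left _ (by positivity)]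

end Pool.Agent.H609R2.Line
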