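import Mathlib

/-!
# Matching points on a line: definitions

Registers `0, 1, 2, …` hold the variables `X 0, X 1, …`.  An event `(true, i)` is a column in
register `i`, an event `(false, i)` a row between the registers `i` and `i + 1`.
-/

namespace Pool.Agent.H609R2.Line

open MvPolynomial

/-- The polynomial of a list of events: `(true, i)` acts as the derivative with respect to `X i`,
`(false, i)` as the multiplication with `X (i + 1) - X i`. -/
noncomputable def V : List (Bool × ℕ) → MvPolynomial ℕ ℚ
  | [] => 1
  | e :: ev => if e.1 = true then pderiv e.2 (V ev) else (X (e.2 + 1) - X e.2) * V ev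

/-- positions of the events of kind `b`; the `τ`-th event in register `i` has position
`i * T + τ + 1` -/
def evPos (b : Bool) (T : ℕ) : ℕ → List (Bool × ℕ) → List ℕ
  | _, [] => []
  | τ, e :: ev => if e.1 = b then (e.2 * T + τ + 1) :: evPos b T (τ + 1) ev
      else evPos b T (τ + 1) ev

/-- length of the windows -/
def win (ev : List (Bool × ℕ)) : ℕ := ev.length + 2

/-- positions of the rows: `m` rows at the beginning of each register `i < R`, and the events -/
def rowsB (R m : ℕ) (ev : List (Bool × ℕ)) : List ℕ :=
  (List.range R).flatMap (fun i => List.replicate m (i * win ev)) ++ evPos false (win ev) 0 ev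

/-- positions of the columns: the events, and `m` columns at the end of each register `i < R` -/
def colsB (R m : ℕ) (ev : List (Bool × ℕ)) : List ℕ :=
  evPos true (win ev) 0 ev ++
    (List.range R).flatMap (fun i => List.replicate m (i * win ev + (ev.length + 1)))

/-- The number of bijections between the positions `P` and the positions `Q` such that
`p ≤ q ≤ p + T` for all matched positions `p`, `q`. -/
noncomputable def cnt (P Q : List ℕ) (T : ℕ) : ℕ :=
  Nat.card {σ : Fin P.length ≃ Fin Q.length //
    ∀ i, P[i.val] ≤ Q[(σ i).val] ∧ Q[(σ i).val] ≤ P[i.val] + T}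

/-- `choose M k / k!` for a rational number `M` -/
noncomputable def cst (M : ℚ) (k : ℕ) : ℚ :=
  (∏ j ∈ Finset.range k, (M - j)) / (k.factorial : ℚ) ^ 2

/-- the group operator with multiplicity `M` (the sum is truncated at `L`) -/
noncomputable def G (L : ℕ) (M : ℚ) (i : ℕ) (f : MvPolynomial ℕ ℚ) : MvPolynomial ℕ ℚ :=
  ∑ k ∈ Finset.range (L + 1),
    C (cst M k) * ((X (i + 1) - X i) ^ k * (pderiv (i + 1))^[k] f)

/-- The polynomial of a program.  `(0, i)` is the event `(true, i)`, `(1, i)` the event
`(false, i)`, and `(a + 1, i)` with `a ≥ 1` a group with multiplicity `a * t`. -/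
noncomputable def Vq (L : ℕ) (t : ℚ) : List (ℕ × ℕ) → MvPolynomial ℕ ℚ
  | [] => 1
  | p :: pr => if p.1 = 0 then pderiv p.2 (Vq L t pr)
      else if p.1 = 1 then (X (p.2 + 1) - X p.2) * Vq L t pr
      else G L (((p.1 : ℚ) - 1) * t) p.2 (Vq L t pr)

/-- the events of one instruction -/
def exp1 (t : ℕ) (p : ℕ × ℕ) : List (Bool × ℕ) :=
  if p.1 = 0 then [(true, p.2)] else if p.1 = 1 then [(false, p.2)]
  else List.replicate ((p.1 - 1) * t) (true, p.2 + 1) ++
    List.replicate ((p.1 - 1) * t) (false, p.2)

/-- the events of a program with parameter `t` -/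
def expand (t : ℕ) (pr : List (ℕ × ℕ)) : List (Bool × ℕ) := pr.flatMap (exp1 t)

/-- product of the factorials of the multiplicities of the groups -/
def nor (t : ℕ) (pr : List (ℕ × ℕ)) : ℕ :=
  (pr.map fun p => if p.1 ≤ 1 then 1 else ((p.1 - 1) * t).factorial).prod

/-- exchange of the registers `k` and `k + 1` (up to the sign) -/
def sw (k : ℕ) : List (ℕ × ℕ) := [(5, k), (0, k), (1, k), (2, k)]

/-- reflection of register `q + 1` in register `0` -/
def acc (q : ℕ) : List (ℕ × ℕ) :=
  (List.range q).flatMap (fun j => sw (q - j)) ++ [(5, 0)] ++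
    (List.range q).flatMap (fun j => sw (j + 1))

/-- the reflections needed for column `j` of the matrix `a` -/
def blk (n : ℕ) (a : ℕ → ℕ → Bool) (j : ℕ) : List (ℕ × ℕ) :=
  (List.range n).flatMap (fun i => if a i j = true then acc (2 * i + 1) else [])

/-- the program of the matrix `a i j`, `i, j < n` -/
def prog (n : ℕ) (a : ℕ → ℕ → Bool) : List (ℕ × ℕ) :=
  (List.range n).flatMap (fun j => blk n a j ++ (0, 0) :: blk n a j) ++
    (List.range n).map (fun i => (1, 2 * i + 1))

end Pool.Agent.H609R2.Line
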