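import Pool.Agent.H609R2.Line.Defs
import Pool.Agent.H549R2.PM10

/-!
# Matching points on a line: the counting problem and the queries
-/

namespace Pool.Agent.H609R2.Line

open Pool.Agent.H549R2.Convex

/-- An instance `((x, y), d)` consists of the list `x` of the positions of red points, the list `y`
of the positions of blue points on a line and a distance `d`.  `lm` is the number of bijections
between the red and the blue points such that matched points have distance at most `d`. -/
noncomputable def lm (I : (List ℕ × List ℕ) × ℕ) : ℕ :=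
  Nat.card {σ : Fin I.1.1.length ≃ Fin I.1.2.length //
    ∀ i, I.1.1[i.val] ≤ I.1.2[(σ i).val] + I.2 ∧ I.1.2[(σ i).val] ≤ I.1.1[i.val] + I.2}

/-- the instance of a list of events with `m` reset columns in each of the `R` registers -/
def inst (R m : ℕ) (ev : List (Bool × ℕ)) : (List ℕ × List ℕ) × ℕ :=
  (((rowsB R m ev).map (fun p => 2 * p + win ev), (colsB R m ev).map (fun q => 2 * q)), win ev)

/-- bound for the degree in the parameter -/
def dk (pr : List (ℕ × ℕ)) : ℕ := pr.length * pr.length

/-- bound for the number of events -/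
def dm (pr : List (ℕ × ℕ)) : ℕ := (8 * dk pr + 1) * pr.length

/-- product of the odd numbers `2 j + 1`, `j ≤ D`, `j ≠ k` -/
def oddp (D k : ℕ) : ℕ := ((List.range (D + 1)).map (fun j => if j = k then 1 else 2 * j + 1)).prod

/-- the weight of the query with parameters `k` and `m` -/
def wt (R : ℕ) (pr : List (ℕ × ℕ)) (k m : ℕ) : ℕ :=
  (dk pr).choose k * oddp (dk pr) k * (dm pr + 1).choose (m + 1) *
    ((dm pr).factorial / m.factorial) ^ R * (nor (dk pr) pr / nor k pr)

/-- the factor to be divided out -/
def zz (n R : ℕ) (pr : List (ℕ × ℕ)) : ℕ :=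
  2 ^ n * (2 ^ dk pr * (dk pr).factorial * (dm pr).factorial ^ R * nor (dk pr) pr)

/-- the program of a matrix -/
def prA (A : List (List Bool)) : List (ℕ × ℕ) := prog A.length (ent A)

/-- the (clipped) parameters of the query number `i` -/
def kk (pr : List (ℕ × ℕ)) (i : ℕ) : ℕ := min (i / (dm pr + 1)) (dk pr)

/-- the (clipped) parameters of the query number `i` -/
def mm (pr : List (ℕ × ℕ)) (i : ℕ) : ℕ := min (i % (dm pr + 1)) (dm pr)

/-- the queries for the permanent of a 0-1 matrix -/
def qsL (A : List (List Bool)) : List ((List ℕ × List ℕ) × ℕ) :=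
  (List.range ((dk (prA A) + 1) * (dm (prA A) + 1))).map (fun i =>
    inst (2 * A.length + 1) (mm (prA A) i) (expand (kk (prA A) i) (prA A)))

/-- the sum of the weighted answers with given parity -/
def part (b : ℕ) (p : List (List Bool) × List ℕ) : ℕ :=
  (((List.range ((dk (prA p.1) + 1) * (dm (prA p.1) + 1))).filter (fun i =>
    decide ((i / (dm (prA p.1) + 1) + i % (dm (prA p.1) + 1)) % 2 = b))).map (fun i =>
      wt (2 * p.1.length + 1) (prA p.1) (kk (prA p.1) i) (mm (prA p.1) i) * p.2.getD i 0)).sum

/-- the permanent of a 0-1 matrix from the answers -/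
def postL (p : List (List Bool) × List ℕ) : ℕ :=
  (part 0 p - part 1 p) / zz p.1.length (2 * p.1.length + 1) (prA p.1)

end Pool.Agent.H609R2.Line
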