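import Pool.Agent.H609R2.Line.Defs

/-! Task D: polynomial dependence of the program polynomial on the parameter. -/

namespace Pool.Agent.H609R2.Line

open MvPolynomial Finset

namespace Dep

/-- `f t` is a polynomial of degree at most `b` in `t` -/
def Pd (b : ℕ) (f : ℚ → MvPolynomial ℕ ℚ) : Prop :=
  ∃ F : Polynomial (MvPolynomial ℕ ℚ), F.natDegree ≤ b ∧ ∀ t : ℚ, F.eval (C t) = f t

theorem Pd.mono {b b' : ℕ} (h : b ≤ b') {f : ℚ → MvPolynomial ℕ ℚ} (hf : Pd b f) : Pd b' f := by
  obtain ⟨F, h1, h2⟩ := hf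
  exact ⟨F, h1.trans h, h2⟩

theorem Pd.const (g : MvPolynomial ℕ ℚ) : Pd 0 (fun _ => g) :=
  ⟨Polynomial.C g, by simp, fun t => by simp⟩

theorem Pd.sum {ι : Type*} (s : Finset ι) {b : ℕ} (f : ι → ℚ → MvPolynomial ℕ ℚ)
    (hf : ∀ i ∈ s, Pd b (f i)) : Pd b (fun t => ∑ i ∈ s, f i t) := by
  classical
  choose! F h1 h2 using hf
  refine ⟨∑ i ∈ s, F i, ?_, ?_⟩
  · exact Polynomial.natDegree_sum_le_of_forall_le s F h1
  · intro t
    rw [Polynomial.eval_finsetSum]
    exact Finset.sum_congr rfl fun i hi => h2 i hi t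

theorem Pd.mul_left {b : ℕ} {f : ℚ → MvPolynomial ℕ ℚ} (g : MvPolynomial ℕ ℚ) (hf : Pd b f) :
    Pd b (fun t => g * f t) := by
  obtain ⟨F, h1, h2⟩ := hf
  refine ⟨Polynomial.C g * F, (Polynomial.natDegree_C_mul_le g F).trans h1, ?_⟩
  intro t
  rw [Polynomial.eval_mul, Polynomial.eval_C, h2]

theorem Pd.coef {b e : ℕ} {f : ℚ → MvPolynomial ℕ ℚ} (q : Polynomial ℚ) (hq : q.natDegree ≤ e)
    (hf : Pd b f) : Pd (b + e) (fun t => C (q.eval t) * f t) := by
  obtain ⟨F, h1, h2⟩ := hf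
  refine ⟨q.map C * F, ?_, ?_⟩
  · refine Polynomial.natDegree_mul_le.trans ?_
    have : (q.map (C : ℚ →+* MvPolynomial ℕ ℚ)).natDegree ≤ q.natDegree :=
      Polynomial.natDegree_map_le
    omega
  · intro t
    rw [Polynomial.eval_mul, h2, Polynomial.eval_map, Polynomial.eval₂_at_apply]

theorem Pd.deriv {b : ℕ} {f : ℚ → MvPolynomial ℕ ℚ} (i : ℕ) (hf : Pd b f) :
    Pd b (fun t => pderiv i (f t)) := by
  obtain ⟨F, h1, h2⟩ := hf
  refine ⟨∑ k ∈ range (b + 1), Polynomial.C (pderiv i (F.coeff k)) * Polynomial.X ^ k, ?_, ?_⟩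
  · apply Polynomial.natDegree_sum_le_of_forall_le
    intro k hk
    refine (Polynomial.natDegree_C_mul_X_pow_le _ _).trans ?_
    have := Finset.mem_range.1 hk
    omega
  · intro t
    have h3 : f t = ∑ k ∈ range (b + 1), F.coeff k * (C t) ^ k := by
      rw [← h2, Polynomial.eval_eq_sum_range' (by omega : F.natDegree < b + 1)]
    show _ = pderiv i (f t)
    rw [h3, map_sum, Polynomial.eval_finsetSum]
    refine Finset.sum_congr rfl fun k _ => ?_
    rw [Polynomial.eval_mul, Polynomial.eval_C, Polynomial.eval_pow, Polynomial.eval_X,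
      ← map_pow, Derivation.leibniz, pderiv_C, smul_zero, zero_add, smul_eq_mul, mul_comm]

theorem Pd.iter {b : ℕ} {f : ℚ → MvPolynomial ℕ ℚ} (i k : ℕ) (hf : Pd b f) :
    Pd b (fun t => (pderiv i)^[k] (f t)) := by
  induction k with
  | zero => simpa using hf
  | succ k ih =>
    simp only [Function.iterate_succ_apply']
    exact ih.deriv i

theorem cst_poly (a : ℚ) (k : ℕ) : ∃ q : Polynomial ℚ, q.natDegree ≤ k ∧
    ∀ t : ℚ, q.eval t = cst (a * t) k := by
  refine ⟨Polynomial.C (1 / (k.factorial : ℚ) ^ 2) *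
    ∏ j ∈ range k, (Polynomial.C a * Polynomial.X - Polynomial.C (j : ℚ)), ?_, ?_⟩
  · refine (Polynomial.natDegree_C_mul_le _ _).trans ?_
    refine (Polynomial.natDegree_prod_le _ _).trans ?_
    have : ∀ j ∈ range k,
        (Polynomial.C a * Polynomial.X - Polynomial.C (j : ℚ)).natDegree ≤ 1 := by
      intro j _
      refine (Polynomial.natDegree_sub_le _ _).trans ?_
      rw [Polynomial.natDegree_C, max_eq_left (Nat.zero_le _)]
      exact (Polynomial.natDegree_C_mul_le _ _).trans Polynomial.natDegree_X_le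
    calc _ ≤ ∑ j ∈ range k, 1 := Finset.sum_le_sum this
      _ = k := by simp
  · intro t
    rw [Polynomial.eval_mul, Polynomial.eval_C, Polynomial.eval_prod]
    unfold cst
    simp only [Polynomial.eval_sub, Polynomial.eval_mul, Polynomial.eval_C, Polynomial.eval_X]
    ring

theorem Pd.G {b : ℕ} {f : ℚ → MvPolynomial ℕ ℚ} (L : ℕ) (a : ℚ) (i : ℕ) (hf : Pd b f) :
    Pd (b + L) (fun t => Line.G L (a * t) i (f t)) := by
  unfold Line.G
  apply Pd.sum
  intro k hk
  obtain ⟨q, h1, h2⟩ := cst_poly a k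
  have h3 := ((hf.iter (i + 1) k).mul_left ((X (i + 1) - X i) ^ k)).coef q h1
  simp only [h2] at h3
  exact h3.mono (by have := Finset.mem_range.1 hk; omega)

theorem Vq_Pd (L : ℕ) (pr : List (ℕ × ℕ)) : Pd (L * pr.length) (fun t => Vq L t pr) := by
  induction pr with
  | nil => exact Pd.const 1
  | cons p pr ih =>
    have hle : L * pr.length ≤ L * (p :: pr).length := Nat.mul_le_mul_left _ (by simp)
    by_cases h0 : p.1 = 0
    · have : (fun t => Vq L t (p :: pr)) = fun t => pderiv p.2 (Vq L t pr) := by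
        ext1 t
        simp only [Vq]
        rw [if_pos h0]
      rw [this]
      exact (ih.deriv _).mono hle
    by_cases h1 : p.1 = 1
    · have : (fun t => Vq L t (p :: pr)) = fun t => (X (p.2 + 1) - X p.2) * Vq L t pr := by
        ext1 t
        simp only [Vq]
        rw [if_neg h0, if_pos h1]
      rw [this]
      exact (ih.mul_left _).mono hle
    · have : (fun t => Vq L t (p :: pr)) =
          fun t => Line.G L (((p.1 : ℚ) - 1) * t) p.2 (Vq L t pr) := by
        ext1 t
        simp only [Vq]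
        rw [if_neg h0, if_neg h1]
      rw [this]
      exact (ih.G L _ _).mono (by rw [List.length_cons]; ring_nf; rfl)

end Dep

/-- D1 -/
theorem poly_dep (L : ℕ) (pr : List (ℕ × ℕ)) :
    ∃ p : Polynomial ℚ, p.natDegree ≤ L * pr.length ∧
      ∀ t : ℚ, p.eval t = constantCoeff (Vq L t pr) := by
  obtain ⟨F, h1, h2⟩ := Dep.Vq_Pd L pr
  refine ⟨F.map constantCoeff, Polynomial.natDegree_map_le.trans h1, ?_⟩
  intro t
  have h3 : t = constantCoeff (C t : MvPolynomial ℕ ℚ) := (constantCoeff_C ℕ t).symm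
  have h4 : Vq L t pr = F.eval (C t) := (h2 t).symm
  rw [h4]
  conv_lhs => rw [h3]
  rw [Polynomial.eval_map, Polynomial.eval₂_at_apply]

end Pool.Agent.H609R2.Line
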