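import Mathlib

/-! Task X: extrapolation to `-1/2`. -/

namespace Pool.Agent.H609R2.Line

open Finset

namespace Extrap

theorem prod_range_sub (k : ℕ) : ∏ j ∈ range k, ((k : ℚ) - j) = (k.factorial : ℚ) := by
  have h1 : ∏ j ∈ range k, ((k : ℚ) - j) = ∏ j ∈ range k, ((j : ℚ) + 1) := by
    rw [← Finset.prod_range_reflect]
    refine Finset.prod_congr rfl fun j hj => ?_
    have hj' := Finset.mem_range.1 hj
    have h2 : k - 1 - j = k - (j + 1) := by omega
    rw [h2, Nat.cast_sub (by omega)]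
    push_cast
    ring
  rw [h1]
  induction k with
  | zero => simp
  | succ k ih =>
    have ih' : ∏ j ∈ range k, ((j : ℚ) + 1) = (k.factorial : ℚ) := by
      clear h1
      clear ih
      induction k with
      | zero => simp
      | succ k ih => rw [Finset.prod_range_succ, ih, Nat.factorial_succ]; push_cast; ring
    rw [Finset.prod_range_succ, ih', Nat.factorial_succ]
    push_cast
    ring

theorem prod_erase (k D : ℕ) (h : k ≤ D) :
    ∏ j ∈ (range (D + 1)).erase k, ((k : ℚ) - j) =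
      (-1) ^ (D - k) * (k.factorial : ℚ) * ((D - k).factorial : ℚ) := by
  induction D, h using Nat.le_induction with
  | base =>
    have h1 : (range (k + 1)).erase k = range k := by
      ext j
      simp
      omega
    rw [h1, prod_range_sub]
    simp
  | succ D hkD ih =>
    have h1 : (range (D + 1 + 1)).erase k = insert (D + 1) ((range (D + 1)).erase k) := by
      ext j
      simp
      omega
    rw [h1, Finset.prod_insert (by simp), ih]
    have h2 : D + 1 - k = (D - k) + 1 := by omega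
    rw [h2, Nat.factorial_succ, pow_succ]
    have h3 : ((D - k + 1 : ℕ) : ℚ) = (D : ℚ) + 1 - k := by
      rw [Nat.cast_add, Nat.cast_sub hkD]
      push_cast
      ring
    rw [Nat.cast_mul, h3]
    push_cast
    ring

end Extrap

/-- X1 -/
theorem extrap (p : Polynomial ℚ) (D : ℕ) (h : p.natDegree ≤ D) :
    2 ^ D * (D.factorial : ℚ) * p.eval (-1 / 2) =
      ∑ k ∈ range (D + 1), (-1 : ℚ) ^ k * (D.choose k : ℚ) *
        ((∏ j ∈ (range (D + 1)).erase k, (2 * j + 1) : ℕ) : ℚ) * p.eval (k : ℚ) := by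
  have hinj : Set.InjOn (fun k : ℕ => (k : ℚ)) (range (D + 1) : Finset ℕ) := by
    intro a _ b _ hab
    have hab' : (a : ℚ) = b := hab
    exact_mod_cast hab'
  have hdeg : p.degree < ((range (D + 1)).card : ℕ) := by
    rw [card_range]
    refine lt_of_le_of_lt p.degree_le_natDegree ?_
    exact_mod_cast Nat.lt_succ_of_le h
  have hp : p = Lagrange.interpolate (range (D + 1)) (fun k : ℕ => (k : ℚ))
      (fun k => p.eval (k : ℚ)) := Lagrange.eq_interpolate hinj hdeg
  have he : p.eval (-1 / 2) = ∑ k ∈ range (D + 1), p.eval (k : ℚ) *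
      ∏ j ∈ (range (D + 1)).erase k, (((k : ℚ) - j)⁻¹ * (-1 / 2 - j)) := by
    conv_lhs => rw [hp]
    rw [Lagrange.interpolate_apply, Polynomial.eval_finsetSum]
    refine Finset.sum_congr rfl fun k _ => ?_
    rw [Polynomial.eval_mul, Polynomial.eval_C]
    congr 1
    unfold Lagrange.basis
    rw [Polynomial.eval_prod]
    refine Finset.prod_congr rfl fun j _ => ?_
    simp [Lagrange.basisDivisor]
  rw [he, Finset.mul_sum]
  refine Finset.sum_congr rfl fun k hk => ?_
  have hkD : k ≤ D := by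
    have := Finset.mem_range.1 hk
    omega
  have hcard : ((range (D + 1)).erase k).card = D := by
    rw [Finset.card_erase_of_mem hk, card_range]
    omega
  have e1 : ∏ j ∈ (range (D + 1)).erase k, (-1 / 2 - (j : ℚ)) =
      (-1 / 2) ^ D * ((∏ j ∈ (range (D + 1)).erase k, (2 * j + 1) : ℕ) : ℚ) := by
    have e0 : (-1 / 2 : ℚ) ^ D = ∏ _j ∈ (range (D + 1)).erase k, (-1 / 2 : ℚ) := by
      rw [Finset.prod_const, hcard]
    rw [Nat.cast_prod, e0, ← Finset.prod_mul_distrib]
    refine Finset.prod_congr rfl fun j _ => ?_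
    push_cast
    ring
  rw [Finset.prod_mul_distrib, Finset.prod_inv_distrib, e1, Extrap.prod_erase k D hkD]
  have e2 : (D.choose k : ℚ) = (D.factorial : ℚ) / (k.factorial * (D - k).factorial) :=
    Nat.cast_choose ℚ hkD
  rw [e2]
  have f1 : (k.factorial : ℚ) ≠ 0 := by exact_mod_cast Nat.factorial_ne_zero k
  have f2 : ((D - k).factorial : ℚ) ≠ 0 := by exact_mod_cast Nat.factorial_ne_zero (D - k)
  have e3 : ((-1 : ℚ) ^ (D - k))⁻¹ = (-1) ^ (D - k) := by
    rw [← inv_pow]
    norm_num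
  have e4 : (2 : ℚ) ^ D * (-1 / 2) ^ D = (-1) ^ D := by
    rw [← mul_pow]
    norm_num
  have e5 : (-1 : ℚ) ^ D * (-1) ^ (D - k) = (-1) ^ k := by
    have : D = k + (D - k) := by omega
    conv_lhs => rw [this]
    rw [Nat.add_sub_cancel_left, pow_add, mul_assoc, ← pow_add, ← two_mul, pow_mul]
    norm_num
  rw [mul_inv, mul_inv, e3]
  set A : ℚ := ((∏ j ∈ (range (D + 1)).erase k, (2 * j + 1) : ℕ) : ℚ)
  calc 2 ^ D * (D.factorial : ℚ) * (p.eval (k : ℚ) *
        ((-1) ^ (D - k) * (k.factorial : ℚ)⁻¹ * ((D - k).factorial : ℚ)⁻¹ * ((-1 / 2) ^ D * A))) =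
      ((2 : ℚ) ^ D * (-1 / 2) ^ D) * (-1) ^ (D - k) * ((D.factorial : ℚ) *
        ((k.factorial : ℚ)⁻¹ * ((D - k).factorial : ℚ)⁻¹)) * A * p.eval (k : ℚ) := by ring
    _ = (-1) ^ k * ((D.factorial : ℚ) / (k.factorial * (D - k).factorial)) * A *
        p.eval (k : ℚ) := by
      rw [e4, e5, div_eq_mul_inv, mul_inv]

end Pool.Agent.H609R2.Line
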