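import Pool.Agent.H609R2.Line.Defs2

/-!
# Membership in `#P` (task K)
-/

namespace Pool.Agent.H609R2.Line

open Pool.Agent.H549R2.Convex Pool.Agent.H549R2.PM Pool.Agent.NPC
  Pool.Agent.NPC.Cnt Pool.Agent.NPC.H549Convex Pool.Agent.NPC.H549PM

/-- test of one entry of a certificate -/
def lcert1 (x : (((List ℕ × List ℕ) × ℕ) × List ℕ) × ℕ) : Bool :=
  decide (x.1.2.getD x.2 0 < x.1.1.1.2.length) && (decide (x.2 ∈ x.1.2) &&
    (decide (x.1.1.1.1.getD x.2 0 ≤ x.1.1.1.2.getD (x.1.2.getD x.2 0) 0 + x.1.1.2) &&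
      decide (x.1.1.1.2.getD (x.1.2.getD x.2 0) 0 ≤ x.1.1.1.1.getD x.2 0 + x.1.1.2)))

/-- test of a certificate: the list of the partners of the red points -/
def lcert (I : (List ℕ × List ℕ) × ℕ) (w : List ℕ) : Bool :=
  decide (I.1.1.length = I.1.2.length) && (decide (w.length = I.1.1.length) &&
    (List.range I.1.1.length).all (fun i => lcert1 ((I, w), i)))

theorem lcert_poly : NPC.Poly (fun x : ((List ℕ × List ℕ) × ℕ) × List ℕ => lcert x.1 x.2) := by
  have hX0 : NPC.Poly (fun x : ((List ℕ × List ℕ) × ℕ) × List ℕ => x.1.1.1) :=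
    NPC.Poly.fst (NPC.Poly.fst (NPC.Poly.fst NPC.Poly.id))
  have hY0 : NPC.Poly (fun x : ((List ℕ × List ℕ) × ℕ) × List ℕ => x.1.1.2) :=
    NPC.Poly.snd (NPC.Poly.fst (NPC.Poly.fst NPC.Poly.id))
  have h0 : NPC.Poly (fun x : ((List ℕ × List ℕ) × ℕ) × List ℕ =>
      decide (x.1.1.1.length = x.1.1.2.length)) :=
    NPC.Poly.decide_eq (NPC.Poly.length hX0) (NPC.Poly.length hY0)
  have h0' : NPC.Poly (fun x : ((List ℕ × List ℕ) × ℕ) × List ℕ =>
      decide (x.2.length = x.1.1.1.length)) :=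
    NPC.Poly.decide_eq (NPC.Poly.length (NPC.Poly.snd NPC.Poly.id)) (NPC.Poly.length hX0)
  have hX : NPC.Poly (fun x : (((List ℕ × List ℕ) × ℕ) × List ℕ) × ℕ => x.1.1.1.1) :=
    NPC.Poly.fst (NPC.Poly.fst (NPC.Poly.fst (NPC.Poly.fst NPC.Poly.id)))
  have hY : NPC.Poly (fun x : (((List ℕ × List ℕ) × ℕ) × List ℕ) × ℕ => x.1.1.1.2) :=
    NPC.Poly.snd (NPC.Poly.fst (NPC.Poly.fst (NPC.Poly.fst NPC.Poly.id)))
  have hd : NPC.Poly (fun x : (((List ℕ × List ℕ) × ℕ) × List ℕ) × ℕ => x.1.1.2) :=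
    NPC.Poly.snd (NPC.Poly.fst (NPC.Poly.fst NPC.Poly.id))
  have hw : NPC.Poly (fun x : (((List ℕ × List ℕ) × ℕ) × List ℕ) × ℕ => x.1.2) :=
    NPC.Poly.snd (NPC.Poly.fst NPC.Poly.id)
  have hi : NPC.Poly (fun x : (((List ℕ × List ℕ) × ℕ) × List ℕ) × ℕ => x.2) :=
    NPC.Poly.snd NPC.Poly.id
  have hwi : NPC.Poly (fun x : (((List ℕ × List ℕ) × ℕ) × List ℕ) × ℕ => x.1.2.getD x.2 0) :=
    NPC.Poly.getD hw hi (NPC.Poly.const 0)
  have hx : NPC.Poly (fun x : (((List ℕ × List ℕ) × ℕ) × List ℕ) × ℕ =>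
      x.1.1.1.1.getD x.2 0) := NPC.Poly.getD hX hi (NPC.Poly.const 0)
  have hy : NPC.Poly (fun x : (((List ℕ × List ℕ) × ℕ) × List ℕ) × ℕ =>
      x.1.1.1.2.getD (x.1.2.getD x.2 0) 0) := NPC.Poly.getD hY hwi (NPC.Poly.const 0)
  have h6 : NPC.Poly lcert1 := NPC.Poly.and (NPC.Poly.decide_lt hwi (NPC.Poly.length hY))
    (NPC.Poly.and (NPC.Poly.decide_mem hi hw)
      (NPC.Poly.and (NPC.Poly.decide_le hx (NPC.Poly.add hy hd))
        (NPC.Poly.decide_le hy (NPC.Poly.add hx hd))))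
  exact NPC.Poly.and h0 (NPC.Poly.and h0'
    (NPC.Poly.all (p := fun (x : ((List ℕ × List ℕ) × ℕ) × List ℕ) i => lcert1 (x, i))
      (NPC.Poly.range_length hX0) h6))

theorem lcert_iff (I : (List ℕ × List ℕ) × ℕ) (w : List ℕ) : lcert I w = true ↔
    ∃ σ : Fin I.1.1.length ≃ Fin I.1.2.length, w = List.ofFn (fun i => (σ i).val) ∧
      ∀ i, I.1.1[i.val] ≤ I.1.2[(σ i).val] + I.2 ∧ I.1.2[(σ i).val] ≤ I.1.1[i.val] + I.2 := by
  rw [lcert, Bool.and_eq_true, Bool.and_eq_true, decide_eq_true_eq, decide_eq_true_eq,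
    List.all_eq_true]
  constructor
  · rintro ⟨hlen, hlw, h⟩
    have hall : ∀ i : Fin I.1.1.length, w[i.val] < I.1.2.length ∧ i.val ∈ w ∧
        (I.1.1[i.val] ≤ I.1.2.getD w[i.val] 0 + I.2 ∧
          I.1.2.getD w[i.val] 0 ≤ I.1.1[i.val] + I.2) := by
      intro i
      have h1 := h i.val (List.mem_range.2 i.2)
      simp only [lcert1, Bool.and_eq_true, decide_eq_true_eq] at h1
      rw [List.getD_eq_getElem w _ (by omega), List.getD_eq_getElem I.1.1 _ i.2] at h1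
      exact h1
    have hsurj : Function.Surjective (fun i : Fin I.1.1.length =>
        (⟨w[i.val], (hall i).1⟩ : Fin I.1.2.length)) := by
      intro v
      obtain ⟨i, hi, hi2⟩ := List.mem_iff_getElem.1 (hall ⟨v.val, by omega⟩).2.1
      exact ⟨⟨i, by omega⟩, Fin.ext hi2⟩
    have hbij : Function.Bijective (fun i : Fin I.1.1.length =>
        (⟨w[i.val], (hall i).1⟩ : Fin I.1.2.length)) := by
      rw [Fintype.bijective_iff_surjective_and_card]
      exact ⟨hsurj, by simp [hlen]⟩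
    refine ⟨Equiv.ofBijective _ hbij, ?_, ?_⟩
    · apply List.ext_getElem
      · rw [List.length_ofFn, hlw]
      · intro i h1 h2
        rw [List.getElem_ofFn]
        rfl
    · intro i
      have h2 := (hall i).2.2
      rw [List.getD_eq_getElem _ _ (hall i).1] at h2
      exact h2
  · rintro ⟨σ, rfl, hσ⟩
    have hlen : I.1.1.length = I.1.2.length := by simpa using Fintype.card_congr σ
    refine ⟨hlen, List.length_ofFn, fun i hi => ?_⟩
    rw [List.mem_range] at hi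
    simp only [lcert1, Bool.and_eq_true, decide_eq_true_eq]
    have h1 : (List.ofFn (fun i => (σ i).val)).getD i 0 = (σ ⟨i, hi⟩).val := by
      rw [List.getD_eq_getElem _ _ (by rw [List.length_ofFn]; exact hi), List.getElem_ofFn]
    rw [h1, List.getD_eq_getElem I.1.1 _ hi, List.getD_eq_getElem I.1.2 _ (σ ⟨i, hi⟩).2]
    refine ⟨(σ ⟨i, hi⟩).2, ?_, (hσ ⟨i, hi⟩).1, (hσ ⟨i, hi⟩).2⟩
    rw [List.mem_ofFn]
    exact ⟨σ.symm ⟨i, by omega⟩, by simp⟩

theorem card_lcert (I : (List ℕ × List ℕ) × ℕ) :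
    Nat.card {w : List ℕ // lcert I w = true} = lm I := by
  rw [lm]
  symm
  refine Nat.card_congr (Equiv.ofBijective
    (fun σ => (⟨List.ofFn (fun i => (σ.1 i).val), ?_⟩ : {w : List ℕ // lcert I w = true}))
    ⟨?_, ?_⟩)
  · rw [lcert_iff]
    exact ⟨σ.1, rfl, σ.2⟩
  · intro σ τ h
    apply Subtype.ext
    have h1 := congrArg Subtype.val h
    simp only at h1
    have h2 := List.ofFn_injective h1
    ext i
    exact congrFun h2 i
  · rintro ⟨w, hc⟩
    obtain ⟨σ, rfl, hσ⟩ := (lcert_iff I w).1 hc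
    exact ⟨⟨σ, hσ⟩, rfl⟩

theorem length_lt_sz' (I : (List ℕ × List ℕ) × ℕ) :
    I.1.1.length < sz I ∧ I.1.2.length < sz I := by
  have h1 := length_lt_sz I.1.1
  have h2 := length_lt_sz I.1.2
  obtain ⟨⟨x, y⟩, d⟩ := I
  simp only [sz_pair] at *
  omega

/-- K1 -/
theorem sharpP_lm : SharpP (strFn lm) := by
  have h := sharpP_typed lcert lcert_poly
    (Polynomial.X * (Polynomial.C 4 * Polynomial.X + Polynomial.C 2) + Polynomial.C 1) ?_
  · have e : (fun I : (List ℕ × List ℕ) × ℕ => Nat.card {w : List ℕ // lcert I w = true}) = lm :=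
      funext card_lcert
    rw [e] at h
    exact h
  · intro I w hc
    obtain ⟨σ, hw, hσ⟩ := (lcert_iff I w).1 hc
    have hlen : w.length = I.1.1.length := by rw [hw, List.length_ofFn]
    have h1 : ∀ a ∈ w, sz a ≤ 4 * I.1.2.length + 1 := by
      intro a ha
      rw [hw, List.mem_ofFn] at ha
      obtain ⟨i, rfl⟩ := ha
      have h2 := (σ i).2
      have h3 := sz_nat_le (σ i).val
      have h4 : ((σ i).val).size ≤ (σ i).val := Nat.size_le.2 Nat.lt_two_pow_self
      omega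
    have h2 := sz_le_length_mul w _ h1
    have h3 := length_lt_sz' I
    simp only [Polynomial.eval_add, Polynomial.eval_mul, Polynomial.eval_X, Polynomial.eval_C]
    have h4 : w.length * (4 * I.1.2.length + 1 + 1) ≤ sz I * (4 * sz I + 2) :=
      Nat.mul_le_mul (by omega) (by omega)
    omega

/-- K2 -/
theorem lm_size (I : (List ℕ × List ℕ) × ℕ) :
    (lm I).size ≤ (Polynomial.X * Polynomial.X + Polynomial.C 1 : Polynomial ℕ).eval (sz I) := by
  have h1 : lm I ≤ I.1.2.length ^ I.1.1.length := by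
    rw [lm]
    have h2 : Nat.card {σ : Fin I.1.1.length ≃ Fin I.1.2.length //
        ∀ i, I.1.1[i.val] ≤ I.1.2[(σ i).val] + I.2 ∧ I.1.2[(σ i).val] ≤ I.1.1[i.val] + I.2} ≤
        Nat.card (Fin I.1.1.length → Fin I.1.2.length) :=
      Nat.card_le_card_of_injective (fun σ => (σ.1 : Fin I.1.1.length → Fin I.1.2.length))
        (fun σ τ h => Subtype.ext (Equiv.coe_fn_injective h))
    rw [Nat.card_eq_fintype_card (α := Fin I.1.1.length → Fin I.1.2.length), Fintype.card_fun,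
      Fintype.card_fin, Fintype.card_fin] at h2
    exact h2
  have h3 : I.1.2.length ^ I.1.1.length ≤ (2 ^ I.1.2.length) ^ I.1.1.length :=
    Nat.pow_le_pow_left (Nat.lt_two_pow_self).le _
  rw [← pow_mul] at h3
  have h4 : 2 ^ (I.1.2.length * I.1.1.length) < 2 ^ (I.1.2.length * I.1.1.length + 1) :=
    Nat.pow_lt_pow_right (by norm_num) (by omega)
  have h5 : (lm I).size ≤ I.1.2.length * I.1.1.length + 1 := by
    rw [Nat.size_le]
    omega
  have h6 := length_lt_sz' I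
  simp only [Polynomial.eval_add, Polynomial.eval_mul, Polynomial.eval_X, Polynomial.eval_C]
  have := Nat.mul_le_mul h6.2.le h6.1.le
  omega

end Pool.Agent.H609R2.Line
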