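import Pool.Agent.H609R2.Line.Defs

/-!
# Matching points on a line: natural multiplicities (task M)
-/

namespace Pool.Agent.H609R2.Line

open MvPolynomial

/-- the degree drops under a derivative -/
theorem M_pderiv_deg (j : ℕ) (f : MvPolynomial ℕ ℚ) :
    pderiv j f = 0 ∨ (pderiv j f).totalDegree + 1 ≤ f.totalDegree := by
  classical
  by_cases h : pderiv j f = 0
  · exact Or.inl h
  · refine Or.inr ?_
    obtain ⟨m, hm⟩ : ∃ m, m ∈ (pderiv j f).support ∧
        (pderiv j f).totalDegree = m.sum fun _ e => e := by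
      have hne : (pderiv j f).support.Nonempty := by
        rwa [Finset.nonempty_iff_ne_empty, ne_eq, MvPolynomial.support_eq_empty]
      obtain ⟨m, hm, he⟩ := Finset.exists_mem_eq_sup _ hne (fun s : ℕ →₀ ℕ => s.sum fun _ e => e)
      exact ⟨m, hm, he⟩
    have h1 : m + Finsupp.single j 1 ∈ f.support := by
      have := hm.1
      rw [mem_support_iff, coeff_pderiv] at this
      rw [mem_support_iff]
      exact left_ne_zero_of_mul this
    have h2 := le_totalDegree h1
    rw [Finsupp.sum_add_index' (fun _ => rfl) (fun _ _ _ => rfl), Finsupp.sum_single_index rfl] at h2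
    rw [hm.2]
    exact h2

theorem M_iter_deg (j k : ℕ) (f : MvPolynomial ℕ ℚ) :
    (pderiv j)^[k] f = 0 ∨ ((pderiv j)^[k] f).totalDegree + k ≤ f.totalDegree := by
  induction k with
  | zero => exact Or.inr (le_refl _)
  | succ k ih =>
    rw [Function.iterate_succ_apply']
    rcases ih with h | h
    · left; rw [h, map_zero]
    · rcases M_pderiv_deg j ((pderiv j)^[k] f) with h2 | h2
      · exact Or.inl h2
      · right; omega

theorem M_iter_zero (j L : ℕ) (f : MvPolynomial ℕ ℚ) (hf : f.totalDegree ≤ L) :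
    (pderiv j)^[L + 1] f = 0 := by
  rcases M_iter_deg j (L + 1) f with h | h
  · exact h
  · omega

theorem M_du (i : ℕ) : pderiv (i + 1) (X (i + 1) - X i : MvPolynomial ℕ ℚ) = 1 := by
  rw [map_sub, pderiv_X_self, pderiv_X_of_ne (by omega), sub_zero]

theorem M_iter_u (i k : ℕ) (g : MvPolynomial ℕ ℚ) :
    (pderiv (i + 1))^[k] ((X (i + 1) - X i) * g) =
      (X (i + 1) - X i) * (pderiv (i + 1))^[k] g + (k : MvPolynomial ℕ ℚ) *
        (pderiv (i + 1))^[k - 1] g := by
  induction k generalizing g with
  | zero => simp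
  | succ k ih =>
    rw [Function.iterate_succ_apply, pderiv_mul, M_du, one_mul]
    have h1 : ∀ a b : MvPolynomial ℕ ℚ, (pderiv (i + 1))^[k] (a + b) =
        (pderiv (i + 1))^[k] a + (pderiv (i + 1))^[k] b := by
      intro a b
      exact iterate_map_add (pderiv (i + 1) : Derivation ℚ (MvPolynomial ℕ ℚ) _) k a b
    rw [h1, ih, Nat.add_sub_cancel, Function.iterate_succ_apply]
    rcases Nat.eq_zero_or_pos k with h | h
    · subst h; simp; ring
    · have h2 : (pderiv (i + 1))^[k - 1] (pderiv (i + 1) g) = (pderiv (i + 1))^[k] g := by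
        rw [← Function.iterate_succ_apply, Nat.succ_eq_add_one, Nat.sub_add_cancel h]
      rw [h2]
      push_cast
      ring

theorem M_cst_zero (M : ℚ) : cst M 0 = 1 := by simp [cst]

theorem M_cst_succ (M : ℕ) (k : ℕ) :
    cst M (k + 1) * ((M : ℚ) + 1 + ((k : ℚ) + 1)) + cst M k =
      ((M : ℚ) + 1) * cst ((M : ℚ) + 1) (k + 1) := by
  unfold cst
  have h1 : ∏ j ∈ Finset.range (k + 1), ((M : ℚ) + 1 - (j : ℚ)) =
      ((M : ℚ) + 1) * ∏ j ∈ Finset.range k, ((M : ℚ) - (j : ℚ)) := by
    rw [Finset.prod_range_succ']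
    rw [mul_comm]
    congr 1
    · simp
    · refine Finset.prod_congr rfl fun j _ => ?_
      push_cast; ring
  rw [h1, Finset.prod_range_succ, Nat.factorial_succ]
  have h2 : (k.factorial : ℚ) ≠ 0 := by exact_mod_cast k.factorial_ne_zero
  have h3 : ((k : ℚ) + 1) ≠ 0 := by positivity
  push_cast
  field_simp
  ring

theorem M_leib (L i M : ℕ) : ∀ f : MvPolynomial ℕ ℚ, (pderiv (i + 1))^[L + 1] f = 0 →
    (pderiv (i + 1))^[M] ((X (i + 1) - X i) ^ M * f) = C (M.factorial : ℚ) * G L M i f := by
  induction M with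
  | zero =>
    intro f hf
    unfold G
    rw [Finset.sum_range_succ']
    have h0 : ∀ k : ℕ, cst ((0 : ℕ) : ℚ) (k + 1) = 0 := by
      intro k
      unfold cst
      rw [Finset.prod_range_succ']
      simp
    rw [Finset.sum_eq_zero (fun k _ => by rw [h0]; simp)]
    simp [M_cst_zero]
  | succ M ih =>
    intro f hf
    set u : MvPolynomial ℕ ℚ := X (i + 1) - X i with hu
    have hadd : ∀ (k : ℕ) (a b : MvPolynomial ℕ ℚ), (pderiv (i + 1))^[k] (a + b) =
        (pderiv (i + 1))^[k] a + (pderiv (i + 1))^[k] b := by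
      intro k a b
      exact iterate_map_add (pderiv (i + 1) : Derivation ℚ (MvPolynomial ℕ ℚ) _) k a b
    have hC : ∀ (k : ℕ) (c : ℚ) (a : MvPolynomial ℕ ℚ), (pderiv (i + 1))^[k] (C c * a) =
        C c * (pderiv (i + 1))^[k] a := by
      intro k c a
      induction k generalizing a with
      | zero => rfl
      | succ k ihk => rw [Function.iterate_succ_apply, Function.iterate_succ_apply, pderiv_C_mul, ihk]
    set h : MvPolynomial ℕ ℚ := C ((M : ℚ) + 1) * f + u * pderiv (i + 1) f with hh
    have e1 : pderiv (i + 1) (u ^ (M + 1) * f) = u ^ M * h := by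
      rw [pderiv_mul, pderiv_pow, M_du, Nat.add_sub_cancel, hh]
      rw [map_add, map_one, map_natCast (C : ℚ →+* MvPolynomial ℕ ℚ) M]
      push_cast
      ring
    have e2 : ∀ k : ℕ, (pderiv (i + 1))^[k] h = C ((M : ℚ) + 1 + k) * (pderiv (i + 1))^[k] f +
        u * (pderiv (i + 1))^[k + 1] f := by
      intro k
      rw [hh, hadd, hC, M_iter_u, ← Function.iterate_succ_apply]
      rcases Nat.eq_zero_or_pos k with h0 | h0
      · subst h0; rw [← hu]; simp
      · have h2 : (pderiv (i + 1))^[k - 1] (pderiv (i + 1) f) = (pderiv (i + 1))^[k] f := by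
          rw [← Function.iterate_succ_apply, Nat.succ_eq_add_one, Nat.sub_add_cancel h0]
        rw [h2, map_add C ((M : ℚ) + 1) (k : ℚ), map_natCast (C : ℚ →+* MvPolynomial ℕ ℚ) k]
        ring
    have e3 : (pderiv (i + 1))^[L + 1] h = 0 := by
      rw [e2, hf, Function.iterate_succ_apply', hf, map_zero, mul_zero, mul_zero, add_zero]
    rw [Function.iterate_succ_apply, e1, ih h e3]
    have e4 : G L M i h = C ((M : ℚ) + 1) * G L ((M : ℚ) + 1) i f := by
      unfold G
      rw [← hu]
      have a1 : ∀ k ∈ Finset.range (L + 1),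
          C (cst (M : ℚ) k) * (u ^ k * (pderiv (i + 1))^[k] h) =
          C (cst (M : ℚ) k * ((M : ℚ) + 1 + k)) * (u ^ k * (pderiv (i + 1))^[k] f) +
          C (cst (M : ℚ) k) * (u ^ (k + 1) * (pderiv (i + 1))^[k + 1] f) := by
        intro k _
        rw [e2, map_mul]
        ring
      rw [Finset.sum_congr rfl a1, Finset.sum_add_distrib,
        Finset.sum_range_succ (fun k => C (cst (M : ℚ) k) * (u ^ (k + 1) * (pderiv (i + 1))^[k + 1] f)),
        hf, mul_zero, mul_zero, add_zero, Finset.sum_range_succ', Finset.sum_range_succ' (fun k =>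
          C (cst ((M : ℚ) + 1) k) * (u ^ k * (pderiv (i + 1))^[k] f)),
        mul_add (C ((M : ℚ) + 1)), Finset.mul_sum]
      rw [add_right_comm, ← Finset.sum_add_distrib]
      congr 1
      · refine Finset.sum_congr rfl fun k _ => ?_
        rw [← mul_assoc (C ((M : ℚ) + 1)), ← map_mul, ← M_cst_succ, ← add_mul, ← map_add]
        push_cast
        rfl
      · simp [M_cst_zero]
    rw [e4, Nat.factorial_succ]
    push_cast
    rw [map_mul]
    ring

/-- M1 -/
theorem leibniz (L M i : ℕ) (f : MvPolynomial ℕ ℚ) (hf : f.totalDegree ≤ L) :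
    (pderiv (i + 1))^[M] ((X (i + 1) - X i) ^ M * f) = C (M.factorial : ℚ) * G L M i f :=
  M_leib L i M f (M_iter_zero (i + 1) L f hf)

theorem M_deg_u (i : ℕ) : (X (i + 1) - X i : MvPolynomial ℕ ℚ).totalDegree ≤ 1 := by
  refine (totalDegree_sub _ _).trans ?_
  rw [totalDegree_X, totalDegree_X]
  exact le_refl _

theorem M_deg_G (L : ℕ) (M : ℚ) (i : ℕ) (f : MvPolynomial ℕ ℚ) :
    (G L M i f).totalDegree ≤ f.totalDegree := by
  unfold G
  refine (totalDegree_finset_sum _ _).trans ?_
  refine Finset.sup_le fun k _ => ?_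
  refine (totalDegree_mul _ _).trans ?_
  rw [totalDegree_C, zero_add]
  rcases M_iter_deg (i + 1) k f with h | h
  · rw [h, mul_zero, totalDegree_zero]; exact Nat.zero_le _
  · refine (totalDegree_mul _ _).trans ?_
    have h1 := totalDegree_pow (X (i + 1) - X i : MvPolynomial ℕ ℚ) k
    have h2 := Nat.mul_le_mul_left k (M_deg_u i)
    omega

/-- M2 -/
theorem totalDegree_Vq (L : ℕ) (t : ℚ) (pr : List (ℕ × ℕ)) :
    (Vq L t pr).totalDegree ≤ pr.length := by
  induction pr with
  | nil => simp [Vq]
  | cons p pr ih =>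
    simp only [Vq, List.length_cons]
    split_ifs
    · rcases M_pderiv_deg p.2 (Vq L t pr) with h | h
      · rw [h, totalDegree_zero]; exact Nat.zero_le _
      · omega
    · refine (totalDegree_mul _ _).trans ?_
      have := M_deg_u p.2
      omega
    · exact (M_deg_G _ _ _ _).trans (ih.trans (Nat.le_succ _))

theorem M_G_C (L : ℕ) (M : ℚ) (i : ℕ) (c : ℚ) (f : MvPolynomial ℕ ℚ) :
    G L M i (C c * f) = C c * G L M i f := by
  have hC : ∀ (k : ℕ) (a : MvPolynomial ℕ ℚ), (pderiv (i + 1))^[k] (C c * a) =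
      C c * (pderiv (i + 1))^[k] a := by
    intro k
    induction k with
    | zero => intro a; rfl
    | succ k ihk =>
      intro a
      rw [Function.iterate_succ_apply, Function.iterate_succ_apply, pderiv_C_mul, ihk]
  unfold G
  rw [Finset.mul_sum]
  refine Finset.sum_congr rfl fun k _ => ?_
  rw [hC]
  ring

theorem M_V_true (M i : ℕ) (w : List (Bool × ℕ)) :
    V (List.replicate M (true, i) ++ w) = (pderiv i)^[M] (V w) := by
  induction M with
  | zero => rfl
  | succ M ih =>
    rw [List.replicate_succ, List.cons_append, Function.iterate_succ_apply', ← ih]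
    rfl

theorem M_V_false (M i : ℕ) (w : List (Bool × ℕ)) :
    V (List.replicate M (false, i) ++ w) = (X (i + 1) - X i) ^ M * (V w) := by
  induction M with
  | zero => simp
  | succ M ih =>
    rw [List.replicate_succ, List.cons_append, pow_succ', mul_assoc, ← ih]
    rfl

/-- M3 -/
theorem V_expand (L t : ℕ) (pr : List (ℕ × ℕ)) (hL : pr.length ≤ L) :
    V (expand t pr) = C (nor t pr : ℚ) * Vq L t pr := by
  induction pr with
  | nil => simp [expand, nor, V, Vq]
  | cons p pr ih =>
    have ih' := ih (by simp only [List.length_cons] at hL; omega)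
    have e1 : expand t (p :: pr) = exp1 t p ++ expand t pr := by simp [expand]
    have e2 : nor t (p :: pr) = (if p.1 ≤ 1 then 1 else ((p.1 - 1) * t).factorial) * nor t pr := by
      simp [nor]
    rw [e1, e2]
    by_cases h0 : p.1 = 0
    · have e3 : exp1 t p = [(true, p.2)] := by simp [exp1, h0]
      rw [e3, if_pos (by omega), one_mul]
      simp only [Vq, h0, if_true]
      show pderiv p.2 (V (expand t pr)) = _
      rw [ih', pderiv_C_mul]
    by_cases h1 : p.1 = 1
    · have e3 : exp1 t p = [(false, p.2)] := by simp [exp1, h1]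
      rw [e3, if_pos (by omega), one_mul]
      simp only [Vq, h1, if_true, one_ne_zero, if_false]
      show (X (p.2 + 1) - X p.2) * V (expand t pr) = _
      rw [ih']
      ring
    · have e3 : exp1 t p = List.replicate ((p.1 - 1) * t) (true, p.2 + 1) ++
          List.replicate ((p.1 - 1) * t) (false, p.2) := by simp [exp1, h0, h1]
      rw [e3, if_neg (by omega), List.append_assoc, M_V_true, M_V_false, ih']
      simp only [Vq, h0, h1, if_false]
      have hd : (C (nor t pr : ℚ) * Vq L t pr).totalDegree ≤ L := by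
        refine (totalDegree_mul _ _).trans ?_
        rw [totalDegree_C, zero_add]
        refine (totalDegree_Vq L t pr).trans ?_
        simp only [List.length_cons] at hL
        omega
      rw [leibniz L _ _ _ hd, M_G_C]
      have h3 : (((p.1 - 1) * t : ℕ) : ℚ) = ((p.1 : ℚ) - 1) * t := by
        rw [Nat.cast_mul, Nat.cast_sub (by omega)]
        push_cast; ring
      rw [h3]
      push_cast
      rw [map_mul]
      ring

end Pool.Agent.H609R2.Line
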