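import Mathlib
import Pool.Agent.H609R2.Line.Defs

/-! Task P: permanents by iterated derivations. -/

namespace Pool.Agent.H609R2.Line

open MvPolynomial Finset

namespace PerAux

/-- Laplace expansion of the permanent along the first column. -/
theorem permanent_succ {R : Type*} [CommRing R] (n : ℕ) (a : Matrix (Fin (n + 1)) (Fin (n + 1)) R) :
    a.permanent = ∑ p : Fin (n + 1), a p 0 *
      (Matrix.of fun i j : Fin n => a (Equiv.swap 0 p i.succ) j.succ).permanent := by
  unfold Matrix.permanent
  rw [← Equiv.Perm.decomposeFin.symm.sum_comp, Fintype.sum_prod_type]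
  refine Finset.sum_congr rfl fun p _ => ?_
  rw [Finset.mul_sum]
  refine Finset.sum_congr rfl fun e _ => ?_
  rw [Fin.prod_univ_succ, Equiv.Perm.decomposeFin_symm_apply_zero]
  congr 1
  refine Finset.prod_congr rfl fun i _ => ?_
  rw [Equiv.Perm.decomposeFin_symm_apply_succ]
  rfl

theorem leibniz_prod {Q : Type*} [CommRing Q] [Algebra ℚ Q] {ι : Type*} [DecidableEq ι]
    (d : Derivation ℚ Q Q) (l : ι → Q) (s : Finset ι) :
    d (∏ i ∈ s, l i) = ∑ p ∈ s, d (l p) * ∏ i ∈ s.erase p, l i := by
  induction s using Finset.induction_on with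
  | empty => simp
  | insert x s hx ih =>
    rw [Finset.prod_insert hx, Derivation.leibniz, ih, Finset.sum_insert hx,
      Finset.erase_insert hx, smul_eq_mul, smul_eq_mul, Finset.mul_sum, add_comm]
    congr 1
    · ring
    · refine Finset.sum_congr rfl fun p hp => ?_
      have h1 : p ≠ x := fun h => hx (h ▸ hp)
      rw [Finset.erase_insert_of_ne (Ne.symm h1), Finset.prod_insert]
      · ring
      · intro h
        exact hx (Finset.mem_of_mem_erase h)

theorem prod_erase_swap {M : Type*} [CommMonoid M] (n : ℕ) (p : Fin (n + 1))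
    (l : Fin (n + 1) → M) :
    ∏ i ∈ (univ : Finset (Fin (n + 1))).erase p, l i = ∏ i : Fin n, l (Equiv.swap 0 p i.succ) := by
  have h : (univ : Finset (Fin (n + 1))).erase p =
      (univ : Finset (Fin n)).image (fun i => Equiv.swap 0 p i.succ) := by
    ext x
    simp only [Finset.mem_erase, Finset.mem_univ, and_true, Finset.mem_image, true_and]
    constructor
    · intro hx
      have h1 : Equiv.swap 0 p x ≠ 0 := by
        intro h
        have h2 : Equiv.swap 0 p x = Equiv.swap 0 p p := by rw [h, Equiv.swap_apply_right]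
        exact hx ((Equiv.swap 0 p).injective h2)
      obtain ⟨i, hi⟩ := Fin.exists_succ_eq.mpr h1
      exact ⟨i, by rw [hi, Equiv.swap_apply_self]⟩
    · rintro ⟨i, rfl⟩ h
      have h2 : Equiv.swap 0 p i.succ = Equiv.swap 0 p 0 := by rw [h, Equiv.swap_apply_left]
      exact Fin.succ_ne_zero i ((Equiv.swap 0 p).injective h2)
  rw [h, Finset.prod_image]
  intro i _ j _ hij
  exact Fin.succ_injective n ((Equiv.swap 0 p).injective hij)

theorem foldl_sum {Q : Type*} [CommRing Q] [Algebra ℚ Q] {ι : Type*} (s : Finset ι)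
    (L : List (Derivation ℚ Q Q)) (c : ι → ℚ) (x : ι → Q) :
    L.foldl (fun f d => d f) (∑ p ∈ s, c p • x p) =
      ∑ p ∈ s, c p • L.foldl (fun f d => d f) (x p) := by
  induction L generalizing x with
  | nil => rfl
  | cons d L ih =>
    rw [List.foldl_cons, map_sum]
    have h1 : ∀ p ∈ s, d (c p • x p) = c p • d (x p) := fun p _ => Derivation.map_smul d _ _
    rw [Finset.sum_congr rfl h1, ih]
    rfl

theorem per_deriv' {Q : Type*} [CommRing Q] [Algebra ℚ Q] (n : ℕ)
    (δ : Fin n → Derivation ℚ Q Q) (l : Fin n → Q) (a : Matrix (Fin n) (Fin n) ℚ)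
    (h : ∀ i j, δ j (l i) = algebraMap ℚ Q (a i j)) :
    (List.ofFn δ).foldl (fun f d => d f) (∏ i, l i) = algebraMap ℚ Q a.permanent := by
  induction n with
  | zero => simp [Matrix.permanent_isEmpty]
  | succ n ih =>
    rw [List.ofFn_succ, List.foldl_cons, leibniz_prod]
    have h1 : ∑ p : Fin (n + 1), δ 0 (l p) * ∏ i ∈ univ.erase p, l i =
        ∑ p : Fin (n + 1), a p 0 • ∏ i : Fin n, l (Equiv.swap 0 p i.succ) := by
      refine Finset.sum_congr rfl fun p _ => ?_
      rw [h, prod_erase_swap, Algebra.smul_def]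
    rw [h1, foldl_sum, permanent_succ, map_sum]
    refine Finset.sum_congr rfl fun p _ => ?_
    rw [ih (fun j => δ j.succ) (fun i => l (Equiv.swap 0 p i.succ))
      (Matrix.of fun i j : Fin n => a (Equiv.swap 0 p i.succ) j.succ) (fun i j => h _ _),
      map_mul, Algebra.smul_def]

end PerAux

/-- P1 -/
theorem per_deriv {Q : Type*} [CommRing Q] [Algebra ℚ Q] (n : ℕ)
    (δ : Fin n → Derivation ℚ Q Q) (l : Fin n → Q) (a : Matrix (Fin n) (Fin n) ℚ)
    (h : ∀ i j, δ j (l i) = algebraMap ℚ Q (a i j)) :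
    (List.ofFn δ).foldr (fun d f => d f) (∏ i, l i) = algebraMap ℚ Q a.permanent := by
  have h1 : (List.ofFn δ) = (List.ofFn (fun j => δ (Fin.rev j))).reverse := by
    apply List.ext_getElem
    · simp
    · intro i h1 h2
      simp only [List.getElem_ofFn, List.getElem_reverse, List.length_ofFn]
      congr 1
      apply Fin.ext
      simp only [List.length_ofFn] at h1
      simp only [Fin.val_rev]
      omega
  have h2 := PerAux.per_deriv' n (fun j => δ (Fin.rev j)) l (a.submatrix id Fin.revPerm)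
    (fun i j => h _ _)
  rw [Matrix.permanent_permute_rows] at h2
  rw [h1, List.foldr_reverse]
  exact h2

/-- P2 -/
theorem cnt_deriv {Q : Type*} [CommRing Q] [Algebra ℚ Q] (PL : List (ℕ × Q))
    (QL : List (ℕ × Derivation ℚ Q Q)) (T : ℕ) (hlen : PL.length = QL.length)
    (h : ∀ p ∈ PL, ∀ q ∈ QL, q.2 p.2 = if p.1 ≤ q.1 ∧ q.1 ≤ p.1 + T then 1 else 0) :
    QL.foldr (fun q f => q.2 f) (PL.map Prod.snd).prod =
      ((cnt (PL.map Prod.fst) (QL.map Prod.fst) T : ℕ) : Q) := by
  classical
  obtain ⟨n, hn⟩ : ∃ n, n = PL.length := ⟨_, rfl⟩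
  obtain ⟨p, hp⟩ : ∃ p : Fin n → ℕ × Q, p = fun i => PL[i.val]'(by omega) := ⟨_, rfl⟩
  obtain ⟨q, hq⟩ : ∃ q : Fin n → ℕ × Derivation ℚ Q Q, q = fun i => QL[i.val]'(by omega) :=
    ⟨_, rfl⟩
  have hPL : PL = List.ofFn p := by
    apply List.ext_getElem
    · simp [hn]
    · intro i h1 h2
      simp [hp]
  have hQL : QL = List.ofFn q := by
    apply List.ext_getElem
    · simp [hn, hlen]
    · intro i h1 h2
      simp [hq]
  have hpm : ∀ i, p i ∈ PL := fun i => by rw [hp]; exact List.getElem_mem _
  have hqm : ∀ i, q i ∈ QL := fun i => by rw [hq]; exact List.getElem_mem _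
  let a : Matrix (Fin n) (Fin n) ℚ := fun i j =>
    if (p i).1 ≤ (q j).1 ∧ (q j).1 ≤ (p i).1 + T then 1 else 0
  have h1 : QL.foldr (fun q f => q.2 f) (PL.map Prod.snd).prod = algebraMap ℚ Q a.permanent := by
    rw [← per_deriv n (fun j => (q j).2) (fun i => (p i).2) a ?_]
    · have e1 : (PL.map Prod.snd).prod = ∏ i, (p i).2 := by
        rw [hPL, List.map_ofFn, List.prod_ofFn]
        rfl
      rw [e1, hQL]
      have e2 : List.ofFn (fun j => (q j).2) = (List.ofFn q).map Prod.snd := by
        rw [List.map_ofFn]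
        rfl
      rw [e2, List.foldr_map]
    · intro i j
      rw [h _ (hpm i) _ (hqm j)]
      simp only [a]
      split_ifs <;> simp
  have h2 : a.permanent = ((cnt (PL.map Prod.fst) (QL.map Prod.fst) T : ℕ) : ℚ) := by
    have e1 : a.permanent = (((univ : Finset (Equiv.Perm (Fin n))).filter
        (fun σ => ∀ j, (p (σ j)).1 ≤ (q j).1 ∧ (q j).1 ≤ (p (σ j)).1 + T)).card : ℚ) := by
      unfold Matrix.permanent
      rw [Finset.card_filter]
      push_cast
      refine Finset.sum_congr rfl fun σ _ => ?_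
      simp only [a]
      rw [Finset.prod_ite_zero]
      simp
    rw [e1]
    congr 1
    unfold cnt
    rw [← Fintype.card_subtype, ← Nat.card_eq_fintype_card]
    have l1 : (PL.map Prod.fst).length = n := by simp [hn]
    have l2 : (QL.map Prod.fst).length = n := by simp [hn, hlen]
    refine Nat.card_congr ?_
    refine ((Equiv.inv (Equiv.Perm (Fin n))).trans
      (Equiv.equivCongr (finCongr l1.symm) (finCongr l2.symm))).subtypeEquiv ?_
    intro σ
    constructor
    · intro hσ i
      have := hσ (σ⁻¹ (Fin.cast l1 i))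
      rw [show σ (σ⁻¹ (Fin.cast l1 i)) = Fin.cast l1 i from σ.apply_symm_apply _] at this
      simpa [hp, hq] using this
    · intro hσ j
      have := hσ (Fin.cast l1.symm (σ j))
      simpa [hp, hq] using this
  rw [h1, h2, map_natCast]

end Pool.Agent.H609R2.Line
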