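import Pool.Agent.H609R2.Line.Defs

/-! Task E of the project on matching points on a line: the multiplicity `-1` of the reset
columns. -/

namespace Pool.Agent.H609R2.Line

open MvPolynomial Finset

section FiniteDifference

open fwdDiff

/-- the polynomial whose value at `m` is `choose (m + b) b` -/
private noncomputable def chooseQ (b : ℕ) : Polynomial ℚ :=
  Polynomial.C (1 / (b.factorial : ℚ)) *
    ∏ j ∈ range b, (Polynomial.X + Polynomial.C ((j : ℚ) + 1))

private theorem chooseQ_natDegree (b : ℕ) : (chooseQ b).natDegree ≤ b := by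
  refine (Polynomial.natDegree_C_mul_le _ _).trans ?_
  refine (Polynomial.natDegree_prod_le _ _).trans ?_
  refine (Finset.sum_le_sum (g := fun _ => 1) fun j _ => ?_).trans (by simp)
  exact (Polynomial.natDegree_X_add_C _).le

private theorem chooseQ_nat (b m : ℕ) : (chooseQ b).eval (m : ℚ) = ((m + b).choose b : ℚ) := by
  rw [chooseQ, Polynomial.eval_mul, Polynomial.eval_C, Polynomial.eval_prod]
  have h1 := Nat.ascFactorial_eq_factorial_mul_choose m b
  rw [Nat.ascFactorial_eq_prod_range] at h1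
  have h2 : ∏ j ∈ range b, Polynomial.eval (m : ℚ) (Polynomial.X + Polynomial.C ((j : ℚ) + 1)) =
      ((∏ i ∈ range b, (m + 1 + i) : ℕ) : ℚ) := by
    push_cast
    refine Finset.prod_congr rfl fun j _ => ?_
    simp only [Polynomial.eval_add, Polynomial.eval_X, Polynomial.eval_C]
    ring
  rw [h2, h1]
  have h3 : (b.factorial : ℚ) ≠ 0 := by exact_mod_cast b.factorial_ne_zero
  push_cast
  field_simp

private theorem chooseQ_neg_one (b : ℕ) :
    (chooseQ b).eval (-1 : ℚ) = if b = 0 then 1 else 0 := by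
  rw [chooseQ, Polynomial.eval_mul, Polynomial.eval_C, Polynomial.eval_prod]
  split_ifs with h
  · subst h
    simp
  · rw [Finset.prod_eq_zero (i := 0) (by simpa using Nat.pos_of_ne_zero h) (by simp), mul_zero]

/-- E1 -/
theorem alt_choose (R : ℕ) (s : ℕ → ℕ) (D : ℕ) (h : ∑ i ∈ range R, s i ≤ D) :
    ∑ m ∈ range (D + 1), (-1 : ℚ) ^ m * ((D + 1).choose (m + 1) : ℚ) *
      ∏ i ∈ range R, ((m + s i).choose (s i) : ℚ) = if ∀ i ∈ range R, s i = 0 then 1 else 0 := by
  set P : Polynomial ℚ := ∏ v ∈ range R, chooseQ (s v) with hP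
  have hdeg : P.natDegree < D + 1 := by
    refine lt_of_le_of_lt ?_ (Nat.lt_succ_of_le h)
    rw [hP]
    exact (Polynomial.natDegree_prod_le _ _).trans (Finset.sum_le_sum fun v _ =>
      chooseQ_natDegree _)
  have h0 := congrFun (Polynomial.fwdDiff_iter_eq_zero_of_degree_lt hdeg) (-1 : ℚ)
  rw [fwdDiff_iter_eq_sum_shift, Finset.sum_range_succ'] at h0
  simp only [Pi.zero_apply] at h0
  have hz : ∀ M : ℕ, P.eval ((-1 : ℚ) + (M + 1) • (1 : ℚ)) =
      ∏ v ∈ range R, ((M + s v).choose (s v) : ℚ) := by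
    intro M
    have : (-1 : ℚ) + (M + 1) • (1 : ℚ) = (M : ℚ) := by
      rw [nsmul_eq_mul]; push_cast; ring
    rw [this, hP, Polynomial.eval_prod]
    exact Finset.prod_congr rfl fun v _ => chooseQ_nat _ _
  have hz0 : P.eval ((-1 : ℚ) + 0 • (1 : ℚ)) = if ∀ i ∈ range R, s i = 0 then 1 else 0 := by
    rw [zero_smul, add_zero, hP, Polynomial.eval_prod]
    simp_rw [chooseQ_neg_one]
    rw [Finset.prod_ite_zero]
    simp
  simp_rw [hz] at h0
  rw [hz0] at h0
  have h2 : ∑ M ∈ range (D + 1), ((-1 : ℤ) ^ (D + 1 - (M + 1)) * ((D + 1).choose (M + 1) : ℤ)) •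
      (∏ v ∈ range R, ((M + s v).choose (s v) : ℚ)) = (-1) ^ D * ∑ M ∈ range (D + 1), (-1 : ℚ) ^ M *
        ((D + 1).choose (M + 1)) * ∏ v ∈ range R, ((M + s v).choose (s v) : ℚ) := by
    rw [Finset.mul_sum]
    refine Finset.sum_congr rfl fun M hM => ?_
    rw [mem_range] at hM
    have e1 : D + 1 - (M + 1) = D - M := by omega
    have e2 : (-1 : ℚ) ^ (D - M) = (-1) ^ D * (-1) ^ M := by
      have : (-1 : ℚ) ^ D = (-1) ^ (D - M) * (-1) ^ M := by
        rw [← pow_add]; congr 1; omega
      rw [this, mul_assoc, ← pow_add, ← two_mul, pow_mul]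
      simp
    rw [e1, zsmul_eq_mul]
    push_cast
    rw [e2]
    ring
  rw [h2] at h0
  have h3 : ∀ z : ℚ, ((-1 : ℤ) ^ (D + 1 - 0) * ((D + 1).choose 0 : ℤ)) • z =
      - ((-1) ^ D * z) := by
    intro z
    rw [zsmul_eq_mul]
    push_cast
    simp only [Nat.choose_zero_right, Nat.cast_one, mul_one]
    rw [pow_succ]
    ring
  rw [h3, add_neg_eq_zero] at h0
  have h4 : ((-1 : ℚ) ^ D) ≠ 0 := pow_ne_zero _ (by norm_num)
  exact mul_left_cancel₀ h4 h0

end FiniteDifference

section Reset

variable {σ : Type*}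

private theorem pderiv_iter_mul (i : σ) (W h : MvPolynomial σ ℚ) (hW : pderiv i W = 0) (m : ℕ) :
    (pderiv i)^[m] (W * h) = W * (pderiv i)^[m] h := by
  induction m generalizing h with
  | zero => rfl
  | succ m ih =>
    rw [Function.iterate_succ_apply, Function.iterate_succ_apply, Derivation.leibniz, hW,
      smul_zero, add_zero, smul_eq_mul, ih]

private theorem pderiv_iter_monomial (i : σ) (s : σ →₀ ℕ) (c : ℚ) (m : ℕ) :
    (pderiv i)^[m] (X i ^ m * monomial s c) =
      monomial s (c * ∏ j ∈ range m, ((s i : ℚ) + j + 1)) := by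
  have key : ∀ (m : ℕ) (c : ℚ), (pderiv i)^[m] (monomial (s + Finsupp.single i m) c) =
      monomial s (c * ∏ j ∈ range m, ((s i : ℚ) + j + 1)) := by
    intro m
    induction m with
    | zero => intro c; simp
    | succ m ih =>
      intro c
      rw [Function.iterate_succ_apply, pderiv_monomial]
      have h1 : s + Finsupp.single i (m + 1) - Finsupp.single i 1 = s + Finsupp.single i m := by
        rw [Finsupp.single_add, ← add_assoc, add_tsub_cancel_right]
      rw [h1, ih, Finset.prod_range_succ]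
      congr 1
      simp only [Finsupp.add_apply, Finsupp.single_eq_same]
      push_cast
      ring
  rw [← key m c]
  congr 1
  rw [X_pow_eq_monomial, monomial_mul, one_mul, add_comm]

private theorem foldr_replicate (i : ℕ) (m : ℕ) (f : MvPolynomial (ℕ ⊕ ℕ) ℚ) :
    (List.replicate m i).foldr (fun i f => pderiv (Sum.inl i) f) f =
      (pderiv (Sum.inl i))^[m] f := by
  induction m with
  | zero => rfl
  | succ m ih =>
    rw [List.replicate_succ, List.foldr_cons, ih, Function.iterate_succ_apply']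

private theorem pderiv_W (R m n : ℕ) (hn : R ≤ n) :
    pderiv (Sum.inl n) (((List.range R).flatMap (fun i =>
          List.replicate m i)).map (fun i => (X (Sum.inl i) : MvPolynomial (ℕ ⊕ ℕ) ℚ))).prod = 0 := by
  have key : ∀ l : List ℕ, (∀ x ∈ l, x ≠ n) →
      pderiv (Sum.inl n) (l.map (fun i => (X (Sum.inl i) : MvPolynomial (ℕ ⊕ ℕ) ℚ))).prod = 0 := by
    intro l hl
    induction l with
    | nil => simp
    | cons a l ih =>
      rw [List.map_cons, List.prod_cons, Derivation.leibniz,
        ih (fun x hx => hl x (List.mem_cons_of_mem _ hx)), smul_zero, zero_add,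
        pderiv_X_of_ne, smul_zero]
      intro h
      exact hl a List.mem_cons_self (Sum.inl_injective h)
  refine key _ fun x hx => ?_
  simp only [List.mem_flatMap, List.mem_range, List.mem_replicate] at hx
  obtain ⟨a, ha, -, rfl⟩ := hx
  omega

private theorem reset_monomial (m : ℕ) (s : (ℕ ⊕ ℕ) →₀ ℕ) (c : ℚ) (R : ℕ) :
    (((List.range R).flatMap (fun i => List.replicate m i)).foldr
        (fun i f => pderiv (Sum.inl i) f) ((((List.range R).flatMap (fun i =>
          List.replicate m i)).map (fun i => (X (Sum.inl i) : MvPolynomial (ℕ ⊕ ℕ) ℚ))).prod *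
            monomial s c)) =
      monomial s (c * ∏ i ∈ range R, ∏ j ∈ range m, ((s (Sum.inl i) : ℚ) + j + 1)) := by
  induction R generalizing c with
  | zero => simp
  | succ R ih =>
    have hW := pderiv_W R m R le_rfl
    rw [List.range_succ, List.flatMap_append, List.foldr_append, List.map_append, List.prod_append]
    simp only [List.flatMap_cons, List.flatMap_nil, List.append_nil, List.map_replicate,
      List.prod_replicate]
    rw [foldr_replicate, mul_assoc, pderiv_iter_mul _ _ _ hW, pderiv_iter_monomial, ih,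
      Finset.prod_range_succ]
    congr 1
    ring

/-- E2 -/
theorem reset (R D : ℕ) (g : MvPolynomial (ℕ ⊕ ℕ) ℚ) (hg : g.totalDegree ≤ D) :
    ∑ m ∈ range (D + 1), C ((-1 : ℚ) ^ m * ((D + 1).choose (m + 1) : ℚ) / (m.factorial : ℚ) ^ R) *
      (((List.range R).flatMap (fun i => List.replicate m i)).foldr
        (fun i f => pderiv (Sum.inl i) f) ((((List.range R).flatMap (fun i =>
          List.replicate m i)).map (fun i => (X (Sum.inl i) : MvPolynomial (ℕ ⊕ ℕ) ℚ))).prod * g)) =
    aeval (fun v => if ∃ i < R, v = Sum.inl i then 0 else X v) g := by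
  have hadd : ∀ (l : List ℕ) (f h : MvPolynomial (ℕ ⊕ ℕ) ℚ),
      l.foldr (fun i f => pderiv (Sum.inl i) f) (f + h) =
        l.foldr (fun i f => pderiv (Sum.inl i) f) f +
          l.foldr (fun i f => pderiv (Sum.inl i) f) h := by
    intro l f h
    induction l with
    | nil => rfl
    | cons a l ih => rw [List.foldr_cons, List.foldr_cons, List.foldr_cons, ih, map_add]
  have hsum : ∀ (l : List ℕ) (W : MvPolynomial (ℕ ⊕ ℕ) ℚ) (t : Finset ((ℕ ⊕ ℕ) →₀ ℕ))
      (F : ((ℕ ⊕ ℕ) →₀ ℕ) → MvPolynomial (ℕ ⊕ ℕ) ℚ),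
      l.foldr (fun i f => pderiv (Sum.inl i) f) (W * ∑ a ∈ t, F a) =
        ∑ a ∈ t, l.foldr (fun i f => pderiv (Sum.inl i) f) (W * F a) := by
    classical
    intro l W t F
    induction t using Finset.induction_on with
    | empty =>
      simp only [Finset.sum_empty, mul_zero]
      induction l with
      | nil => rfl
      | cons a l ih => rw [List.foldr_cons, ih, map_zero]
    | insert a t ha ih => rw [Finset.sum_insert ha, Finset.sum_insert ha, mul_add, hadd, ih]
  have hg2 : g = ∑ s ∈ g.support, monomial s (coeff s g) := g.as_sum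
  have hL : ∀ m : ℕ, (((List.range R).flatMap (fun i => List.replicate m i)).foldr
        (fun i f => pderiv (Sum.inl i) f) ((((List.range R).flatMap (fun i =>
          List.replicate m i)).map (fun i => (X (Sum.inl i) : MvPolynomial (ℕ ⊕ ℕ) ℚ))).prod * g)) =
      ∑ s ∈ g.support, monomial s (coeff s g *
        ∏ i ∈ range R, ∏ j ∈ range m, ((s (Sum.inl i) : ℚ) + j + 1)) := by
    intro m
    conv_lhs => rw [hg2]
    rw [hsum]
    exact Finset.sum_congr rfl fun s _ => reset_monomial m s _ R
  simp_rw [hL]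
  conv_rhs => rw [hg2]
  rw [map_sum]
  simp_rw [Finset.mul_sum]
  rw [Finset.sum_comm]
  refine Finset.sum_congr rfl fun s hs => ?_
  have hdeg : ∑ i ∈ range R, s (Sum.inl i) ≤ D := by
    refine le_trans ?_ ((le_totalDegree hs).trans hg)
    rw [Finsupp.sum]
    have h1 : ∑ i ∈ range R, s (Sum.inl i) = ∑ v ∈ (range R).map ⟨Sum.inl, Sum.inl_injective⟩,
        s v := by
      rw [Finset.sum_map]
      rfl
    rw [h1, ← Finset.sum_filter_ne_zero]
    refine Finset.sum_le_sum_of_subset fun v hv => ?_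
    rw [Finset.mem_filter] at hv
    exact Finsupp.mem_support_iff.2 hv.2
  have hE := alt_choose R (fun i => s (Sum.inl i)) D hdeg
  have hfac : ∀ (m b : ℕ), ∏ j ∈ range m, ((b : ℚ) + j + 1) =
      (m.factorial : ℚ) * ((m + b).choose b : ℚ) := by
    intro m b
    have h1 := Nat.ascFactorial_eq_factorial_mul_choose b m
    rw [Nat.ascFactorial_eq_prod_range] at h1
    have h2 : ∏ j ∈ range m, ((b : ℚ) + j + 1) = ((∏ i ∈ range m, (b + 1 + i) : ℕ) : ℚ) := by
      push_cast
      exact Finset.prod_congr rfl fun j _ => by ring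
    rw [h2, h1, Nat.add_comm b m, Nat.choose_symm_add]
    push_cast
    ring
  have hterm : ∀ m ∈ range (D + 1),
      C ((-1 : ℚ) ^ m * ((D + 1).choose (m + 1) : ℚ) / (m.factorial : ℚ) ^ R) *
        monomial s (coeff s g * ∏ i ∈ range R, ∏ j ∈ range m, ((s (Sum.inl i) : ℚ) + j + 1)) =
      monomial s (coeff s g * ((-1 : ℚ) ^ m * ((D + 1).choose (m + 1) : ℚ) *
        ∏ i ∈ range R, ((m + s (Sum.inl i)).choose (s (Sum.inl i)) : ℚ))) := by
    intro m _
    rw [C_mul_monomial]
    congr 1
    simp_rw [hfac]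
    rw [Finset.prod_mul_distrib, Finset.prod_const, Finset.card_range]
    have h3 : (m.factorial : ℚ) ^ R ≠ 0 := pow_ne_zero _ (by exact_mod_cast m.factorial_ne_zero)
    field_simp
  rw [Finset.sum_congr rfl hterm, ← map_sum, ← Finset.mul_sum, hE, aeval_monomial]
  split_ifs with h
  · rw [mul_one, monomial_eq, algebraMap_eq]
    congr 1
    refine Finsupp.prod_congr fun v hv => ?_
    rw [if_neg]
    rintro ⟨i, hi, rfl⟩
    exact (Finsupp.mem_support_iff.1 hv) (h i (Finset.mem_range.2 hi))
  · push Not at h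
    obtain ⟨i, hi, hs0⟩ := h
    rw [mul_zero, map_zero]
    symm
    rw [Finsupp.prod, Finset.prod_eq_zero (i := Sum.inl i) (Finsupp.mem_support_iff.2 hs0), mul_zero]
    rw [if_pos ⟨i, Finset.mem_range.1 hi, rfl⟩, zero_pow hs0]

end Reset

end Pool.Agent.H609R2.Line
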