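import Pool.Agent.H609R2.Line.Defs

/-! Statements of the tasks (see table h609_tasks); proofs go to separate files. -/

namespace Pool.Agent.H609R2.Line.Stubs

open MvPolynomial Finset

/-! ### Task P: permanents by derivations -/

/-- P1 -/
theorem per_deriv {Q : Type*} [CommRing Q] [Algebra ℚ Q] (n : ℕ)
    (δ : Fin n → Derivation ℚ Q Q) (l : Fin n → Q) (a : Matrix (Fin n) (Fin n) ℚ)
    (h : ∀ i j, δ j (l i) = algebraMap ℚ Q (a i j)) :
    (List.ofFn δ).foldr (fun d f => d f) (∏ i, l i) = algebraMap ℚ Q a.permanent := by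
  sorry

/-- P2 -/
theorem cnt_deriv {Q : Type*} [CommRing Q] [Algebra ℚ Q] (PL : List (ℕ × Q))
    (QL : List (ℕ × Derivation ℚ Q Q)) (T : ℕ) (hlen : PL.length = QL.length)
    (h : ∀ p ∈ PL, ∀ q ∈ QL, q.2 p.2 = if p.1 ≤ q.1 ∧ q.1 ≤ p.1 + T then 1 else 0) :
    QL.foldr (fun q f => q.2 f) (PL.map Prod.snd).prod =
      ((cnt (PL.map Prod.fst) (QL.map Prod.fst) T : ℕ) : Q) := by
  sorry

/-! ### Task E: the multiplicity `-1` of the reset columns -/

/-- E1 -/
theorem alt_choose (R : ℕ) (s : ℕ → ℕ) (D : ℕ) (h : ∑ i ∈ range R, s i ≤ D) :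
    ∑ m ∈ range (D + 1), (-1 : ℚ) ^ m * ((D + 1).choose (m + 1) : ℚ) *
      ∏ i ∈ range R, ((m + s i).choose (s i) : ℚ) = if ∀ i ∈ range R, s i = 0 then 1 else 0 := by
  sorry

/-- E2 -/
theorem reset (R D : ℕ) (g : MvPolynomial (ℕ ⊕ ℕ) ℚ) (hg : g.totalDegree ≤ D) :
    ∑ m ∈ range (D + 1), C ((-1 : ℚ) ^ m * ((D + 1).choose (m + 1) : ℚ) / (m.factorial : ℚ) ^ R) *
      (((List.range R).flatMap (fun i => List.replicate m i)).foldr
        (fun i f => pderiv (Sum.inl i) f) ((((List.range R).flatMap (fun i =>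
          List.replicate m i)).map (fun i => (X (Sum.inl i) : MvPolynomial (ℕ ⊕ ℕ) ℚ))).prod * g)) =
    aeval (fun v => if ∃ i < R, v = Sum.inl i then 0 else X v) g := by
  sorry

/-! ### Task N: normal ordering -/

/-- sum of the variables of the columns of register `i` before time `τ` -/
noncomputable def Fx (ev : List (Bool × ℕ)) (i τ : ℕ) : MvPolynomial ℕ ℚ :=
  ∑ u ∈ (range τ).filter (fun u => ev.getD u (false, 0) = (true, i)), X u

/-- N1 -/
theorem normal_order (ev : List (Bool × ℕ)) :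
    constantCoeff (((List.range ev.length).filter (fun τ => (ev.getD τ (false, 0)).1)).foldr
      (fun τ f => pderiv τ f)
      (((List.range ev.length).filter (fun τ => !(ev.getD τ (false, 0)).1)).map
        (fun τ => Fx ev ((ev.getD τ (false, 0)).2 + 1) τ - Fx ev (ev.getD τ (false, 0)).2 τ)).prod) =
    constantCoeff (V ev) := by
  sorry

/-- N2 -/
theorem V_unbalanced (ev : List (Bool × ℕ)) (s : ℕ →₀ ℕ) (h : coeff s (V ev) ≠ 0) :
    s.degree + (ev.filter (fun e => e.1)).length = (ev.filter (fun e => !e.1)).length := by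
  sorry

/-- N3 -/
theorem evPos_eq (b : Bool) (T : ℕ) (ev : List (Bool × ℕ)) :
    evPos b T 0 ev = ((List.range ev.length).filter (fun τ => (ev.getD τ (false, 0)).1 == b)).map
      (fun τ => (ev.getD τ (false, 0)).2 * T + τ + 1) := by
  sorry

/-! ### Task B: the board (uses P, E, N) -/

/-- B1 -/
theorem board (R : ℕ) (ev : List (Bool × ℕ)) (D : ℕ)
    (hR : ∀ e ∈ ev, (e.1 = true ∧ e.2 < R) ∨ e.2 + 1 < R) (hD : ev.length ≤ D) :
    ∑ m ∈ range (D + 1), (-1 : ℚ) ^ m * ((D + 1).choose (m + 1) : ℚ) / (m.factorial : ℚ) ^ R *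
      (cnt (rowsB R m ev) (colsB R m ev) (win ev) : ℚ) = constantCoeff (V ev) := by
  sorry

/-! ### Task M: natural multiplicities -/

/-- M1 -/
theorem leibniz (L M i : ℕ) (f : MvPolynomial ℕ ℚ) (hf : f.totalDegree ≤ L) :
    (pderiv (i + 1))^[M] ((X (i + 1) - X i) ^ M * f) = C (M.factorial : ℚ) * G L M i f := by
  sorry

/-- M2 -/
theorem totalDegree_Vq (L : ℕ) (t : ℚ) (pr : List (ℕ × ℕ)) :
    (Vq L t pr).totalDegree ≤ pr.length := by
  sorry

/-- M3 -/
theorem V_expand (L t : ℕ) (pr : List (ℕ × ℕ)) (hL : pr.length ≤ L) :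
    V (expand t pr) = C (nor t pr : ℚ) * Vq L t pr := by
  sorry

/-! ### Task D: polynomial dependence on the parameter -/

/-- D1 -/
theorem poly_dep (L : ℕ) (pr : List (ℕ × ℕ)) :
    ∃ p : Polynomial ℚ, p.natDegree ≤ L * pr.length ∧
      ∀ t : ℚ, p.eval t = constantCoeff (Vq L t pr) := by
  sorry

/-! ### Task S: the parameter `-1/2` -/

/-- degree at most one in the variables `X i`, `i ≥ 1` -/
def ML (f : MvPolynomial ℕ ℚ) : Prop := ∀ s ∈ f.support, ∀ i, 1 ≤ i → s i ≤ 1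

/-- reflection of register `p` in register `0` -/
noncomputable def refl (p : ℕ) : MvPolynomial ℕ ℚ →ₐ[ℚ] MvPolynomial ℕ ℚ :=
  aeval (fun i => if i = p then 2 * X 0 - X p else X i)

/-- S1 -/
theorem swap_op (L : ℕ) (hL : 2 ≤ L) (k : ℕ) (hk : 1 ≤ k) (f : MvPolynomial ℕ ℚ) (hf : ML f) :
    G L (-2) k (pderiv k ((X (k + 1) - X k) * G L (-1 / 2) k f)) =
      - rename (Equiv.swap k (k + 1)) f := by
  sorry

/-- S2 -/
theorem refl_op (L : ℕ) (hL : 2 ≤ L) (f : MvPolynomial ℕ ℚ) (hf : ML f) :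
    G L (-2) 0 f = refl 1 f := by
  sorry

/-- S3 -/
theorem ML_rename (k : ℕ) (hk : 1 ≤ k) (f : MvPolynomial ℕ ℚ) (hf : ML f) :
    ML (rename (Equiv.swap k (k + 1)) f) := by
  sorry

/-- S4 -/
theorem ML_refl (p : ℕ) (hp : 1 ≤ p) (f : MvPolynomial ℕ ℚ) (hf : ML f) : ML (refl p f) := by
  sorry

/-- S5 -/
theorem ML_pderiv (f : MvPolynomial ℕ ℚ) (hf : ML f) : ML (pderiv 0 f) := by
  sorry

/-- S6 -/
theorem refl_conj (p : ℕ) (hp : 1 ≤ p) (f : MvPolynomial ℕ ℚ) :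
    rename (Equiv.swap p (p + 1)) (refl p (rename (Equiv.swap p (p + 1)) f)) =
      refl (p + 1) f := by
  sorry

/-- S7: the program of a matrix at the parameter `-1/2` (uses P1) -/
theorem prog_eval (L : ℕ) (hL : 2 ≤ L) (n : ℕ) (a : ℕ → ℕ → Bool) :
    constantCoeff (Vq L (-1 / 2) (prog n a)) = 2 ^ n * Matrix.permanent
      (Matrix.of fun i j : Fin n => if a i.val j.val = true then (1 : ℚ) else 0) := by
  sorry

/-! ### Task X: extrapolation to `-1/2` -/

/-- X1 -/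
theorem extrap (p : Polynomial ℚ) (D : ℕ) (h : p.natDegree ≤ D) :
    2 ^ D * (D.factorial : ℚ) * p.eval (-1 / 2) =
      ∑ k ∈ range (D + 1), (-1 : ℚ) ^ k * (D.choose k : ℚ) *
        ((∏ j ∈ (range (D + 1)).erase k, (2 * j + 1) : ℕ) : ℚ) * p.eval (k : ℚ) := by
  sorry

end Pool.Agent.H609R2.Line.Stubs
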