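import Pool.Agent.H609R2.Line.Defs2

/-! Statements of the tasks (see table h609_tasks); proofs go to separate files. -/

namespace Pool.Agent.H609R2.Line.Stubs

open MvPolynomial Finset Pool.Agent.H549R2.Convex Pool.Agent.H549R2.PM Pool.Agent.NPC
  Pool.Agent.NPC.Cnt Pool.Agent.NPC.H549Convex Pool.Agent.NPC.H549PM

/-! ### Task A: assembly (uses B, M, D, S, X) -/

/-- A1 -/
theorem lm_inst (R m : ℕ) (ev : List (Bool × ℕ)) :
    lm (inst R m ev) = cnt (rowsB R m ev) (colsB R m ev) (win ev) := by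
  sorry

/-- A2 -/
theorem main_formula (R : ℕ) (pr : List (ℕ × ℕ)) (h5 : ∀ p ∈ pr, p.1 ≤ 5)
    (hR : ∀ p ∈ pr, p.2 + 1 < R) :
    ∑ k ∈ range (dk pr + 1), ∑ m ∈ range (dm pr + 1), (-1 : ℚ) ^ (k + m) *
      (wt R pr k m : ℚ) * (cnt (rowsB R m (expand k pr)) (colsB R m (expand k pr))
        (win (expand k pr)) : ℚ) =
    2 ^ dk pr * ((dk pr).factorial : ℚ) * ((dm pr).factorial : ℚ) ^ R * (nor (dk pr) pr : ℚ) *
      constantCoeff (Vq (pr.length) (-1 / 2) pr) := by
  sorry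

/-- A3 -/
theorem postL_correct (A : List (List Bool)) (h : ∀ r ∈ A, r.length = A.length) :
    postL (A, (qsL A).map lm) = F A := by
  sorry

/-! ### Task T: polynomial time -/

/-- T1 -/
theorem qsL_poly : Poly qsL := by
  sorry

/-- T2 -/
theorem postL_poly : Poly postL := by
  sorry

/-! ### Task C: composition of reductions -/

/-- C1 -/
theorem compose {α : Type} [TEnc α] (qs : CNF ℕ → List (List (List Bool)))
    (post : CNF ℕ × List ℕ → ℕ) (hqs : Poly qs) (hpost : Poly post) (f : List (List Bool) → ℕ)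
    (h : ∀ φ, satCount φ = post (φ, (qs φ).map f))
    (qs2 : List (List Bool) → List α) (post2 : List (List Bool) × List ℕ → ℕ)
    (hqs2 : Poly qs2) (hpost2 : Poly post2) :
    ∃ (qs' : CNF ℕ → List α) (post' : CNF ℕ × List ℕ → ℕ), Poly qs' ∧ Poly post' ∧
      ∀ g : α → ℕ, (∀ φ, ∀ b ∈ qs φ, f b = post2 (b, (qs2 b).map g)) →
        ∀ φ, satCount φ = post' (φ, (qs' φ).map g) := by
  sorry

/-- C2: the reduction of helper549 from `#SAT` to the 0-1 permanent -/
theorem sat_perm : ∃ (qs : CNF ℕ → List (List (List Bool))) (post : CNF ℕ × List ℕ → ℕ),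
    Poly qs ∧ Poly post ∧ (∀ φ, ∀ A ∈ qs φ, ∀ r ∈ A, r.length = A.length) ∧
      ∀ φ, satCount φ = post (φ, (qs φ).map F) := by
  sorry

/-! ### Task K: membership in #P -/

/-- K1 -/
theorem sharpP_lm : SharpP (strFn lm) := by
  sorry

/-- K2 -/
theorem lm_size (I : (List ℕ × List ℕ) × ℕ) :
    (lm I).size ≤ (Polynomial.X * Polynomial.X + Polynomial.C 1 : Polynomial ℕ).eval (sz I) := by
  sorry

end Pool.Agent.H609R2.Line.Stubs
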