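import Pool.Agent.H609R2.Line.Defs

/-!
# The swap and reflection operators

On polynomials of degree at most one in all variables `X i`, `i ≥ 1`, the operators with the
multiplicities `-2` and `-1/2` combine to exchanges of registers and reflections.
-/

namespace Pool.Agent.H609R2.Line

open MvPolynomial Finset

/-- degree at most one in the variables `X i`, `i ≥ 1` -/
def ML (f : MvPolynomial ℕ ℚ) : Prop := ∀ s ∈ f.support, ∀ i, 1 ≤ i → s i ≤ 1

/-- reflection of register `p` in register `0` -/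
noncomputable def refl (p : ℕ) : MvPolynomial ℕ ℚ →ₐ[ℚ] MvPolynomial ℕ ℚ :=
  aeval (fun i => if i = p then 2 * X 0 - X p else X i)

/-! ### Closure properties of `ML` -/

theorem ML_zero : ML 0 := by
  intro s hs
  simp at hs

theorem ML_add {f g : MvPolynomial ℕ ℚ} (hf : ML f) (hg : ML g) : ML (f + g) := by
  classical
  intro s hs
  rcases Finset.mem_union.1 (support_add hs) with h | h
  · exact hf s h
  · exact hg s h

theorem ML_sum {ι : Type*} (S : Finset ι) (F : ι → MvPolynomial ℕ ℚ) (h : ∀ i ∈ S, ML (F i)) :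
    ML (∑ i ∈ S, F i) := by
  classical
  induction S using Finset.induction_on with
  | empty => simpa using ML_zero
  | insert a S ha ih =>
    rw [Finset.sum_insert ha]
    exact ML_add (h a (Finset.mem_insert_self _ _))
      (ih fun i hi => h i (Finset.mem_insert_of_mem hi))

theorem ML_monomial {s : ℕ →₀ ℕ} (h : ∀ i, 1 ≤ i → s i ≤ 1) (c : ℚ) : ML (monomial s c) := by
  classical
  intro t ht
  have := MvPolynomial.support_monomial_subset ht
  rw [Finset.mem_singleton] at this
  subst this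
  exact h

/-- A property of linear type holds for all `ML` polynomials as soon as it holds for the
monomials. -/
theorem ML_induction {P : MvPolynomial ℕ ℚ → Prop} (h0 : P 0)
    (hadd : ∀ f g, P f → P g → P (f + g))
    (hm : ∀ (s : ℕ →₀ ℕ) (c : ℚ), (∀ i, 1 ≤ i → s i ≤ 1) → P (monomial s c))
    (f : MvPolynomial ℕ ℚ) (hf : ML f) : P f := by
  classical
  rw [f.as_sum]
  have : ∀ S : Finset (ℕ →₀ ℕ), S ⊆ f.support → P (∑ v ∈ S, monomial v (coeff v f)) := by
    intro S
    induction S using Finset.induction_on with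
    | empty => intro _; simpa using h0
    | insert a S ha ih =>
      intro hS
      rw [Finset.sum_insert ha]
      exact hadd _ _ (hm _ _ (hf a (hS (Finset.mem_insert_self _ _))))
        (ih fun i hi => hS (Finset.mem_insert_of_mem hi))
  exact this _ (Finset.Subset.refl _)

/-! ### Group operators on polynomials of degree at most two -/

theorem cst_zero' (M : ℚ) : cst M 0 = 1 := by simp [cst]

theorem cst_one' (M : ℚ) : cst M 1 = M := by simp [cst]

theorem cst_two' (M : ℚ) : cst M 2 = M * (M - 1) / 4 := by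
  simp [cst, Finset.prod_range_succ]
  norm_num

theorem G_deg2 (L : ℕ) (hL : 2 ≤ L) (M : ℚ) (i : ℕ) (f : MvPolynomial ℕ ℚ)
    (h : pderiv (i + 1) (pderiv (i + 1) (pderiv (i + 1) f)) = 0) :
    G L M i f = f + C M * ((X (i + 1) - X i) * pderiv (i + 1) f) +
      C (M * (M - 1) / 4) * ((X (i + 1) - X i) ^ 2 * pderiv (i + 1) (pderiv (i + 1) f)) := by
  have hz : ∀ k, 3 ≤ k → (pderiv (i + 1))^[k] f = 0 := by
    intro k hk
    obtain ⟨m, rfl⟩ := Nat.exists_eq_add_of_le hk
    rw [show 3 + m = m + 3 by ring, Function.iterate_add_apply]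
    have : (pderiv (i + 1))^[3] f = 0 := by simpa using h
    rw [this]
    clear this h
    induction m with
    | zero => rfl
    | succ m ih => rw [Function.iterate_succ_apply, map_zero]; exact ih (by omega)
  unfold G
  rw [← Finset.sum_subset (s₁ := range 3)]
  · rw [Finset.sum_range_succ, Finset.sum_range_succ, Finset.sum_range_succ, Finset.sum_range_zero,
      cst_zero', cst_one', cst_two']
    simp
  · intro x hx
    simp only [Finset.mem_range] at hx ⊢
    omega
  · intro x _ hx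
    simp only [Finset.mem_range, not_lt] at hx
    rw [hz x hx]
    simp

/-! ### The exchange of two registers -/

/-- independent of the variables `k` and `k + 1` -/
def Fr (k : ℕ) (g : MvPolynomial ℕ ℚ) : Prop :=
  pderiv k g = 0 ∧ pderiv (k + 1) g = 0 ∧ rename (Equiv.swap k (k + 1)) g = g

theorem Fr_zero (k : ℕ) : Fr k 0 := ⟨map_zero _, map_zero _, map_zero _⟩

theorem Fr_add {k : ℕ} {f g : MvPolynomial ℕ ℚ} (hf : Fr k f) (hg : Fr k g) : Fr k (f + g) := by
  refine ⟨?_, ?_, ?_⟩
  · rw [map_add, hf.1, hg.1, add_zero]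
  · rw [map_add, hf.2.1, hg.2.1, add_zero]
  · rw [map_add, hf.2.2, hg.2.2]

theorem mapDomain_swap_apply (a b : ℕ) (s : ℕ →₀ ℕ) (i : ℕ) :
    (Finsupp.mapDomain (Equiv.swap a b) s) i = s (Equiv.swap a b i) := by
  have := Finsupp.mapDomain_equiv_apply (f := Equiv.swap a b) s i
  rwa [Equiv.symm_swap] at this

theorem Fr_monomial {k : ℕ} {s : ℕ →₀ ℕ} (h0 : s k = 0) (h1 : s (k + 1) = 0) (c : ℚ) :
    Fr k (monomial s c) := by
  refine ⟨?_, ?_, ?_⟩
  · rw [pderiv_monomial, h0]; simp
  · rw [pderiv_monomial, h1]; simp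
  · rw [rename_monomial]
    have hs : Finsupp.mapDomain (Equiv.swap k (k + 1)) s = s := by
      ext i
      rw [mapDomain_swap_apply]
      rcases eq_or_ne i k with rfl | hik
      · rw [Equiv.swap_apply_left, h0, h1]
      · rcases eq_or_ne i (k + 1) with rfl | hik'
        · rw [Equiv.swap_apply_right, h0, h1]
        · rw [Equiv.swap_apply_of_ne_of_ne hik hik']
    rw [hs]

theorem monomial_split (k : ℕ) (s : ℕ →₀ ℕ) (c : ℚ) :
    monomial s c = monomial ((s.erase k).erase (k + 1)) c * (X k ^ s k * X (k + 1) ^ s (k + 1)) := by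
  rw [X_pow_eq_monomial, X_pow_eq_monomial, monomial_mul, monomial_mul, one_mul, mul_one]
  have hs : s = (s.erase k).erase (k + 1) + (Finsupp.single k (s k) +
      Finsupp.single (k + 1) (s (k + 1))) := by
    ext i
    simp only [Finsupp.add_apply, Finsupp.single_apply, Finsupp.erase_apply]
    rcases eq_or_ne i k with rfl | hik
    · simp
    · rcases eq_or_ne i (k + 1) with rfl | hik'
      · simp
      · simp [hik, hik', Ne.symm hik, Ne.symm hik']
  rw [← hs]

theorem Fr_decomp (k : ℕ) (hk : 1 ≤ k) (f : MvPolynomial ℕ ℚ) (hf : ML f) :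
    ∃ a b c d : MvPolynomial ℕ ℚ, Fr k a ∧ Fr k b ∧ Fr k c ∧ Fr k d ∧
      f = a + b * X k + c * X (k + 1) + d * (X k * X (k + 1)) := by
  refine ML_induction (P := fun f => ∃ a b c d : MvPolynomial ℕ ℚ, Fr k a ∧ Fr k b ∧ Fr k c ∧
    Fr k d ∧ f = a + b * X k + c * X (k + 1) + d * (X k * X (k + 1))) ?_ ?_ ?_ f hf
  · exact ⟨0, 0, 0, 0, Fr_zero k, Fr_zero k, Fr_zero k, Fr_zero k, by ring⟩
  · rintro f g ⟨a, b, c, d, ha, hb, hc, hd, rfl⟩ ⟨a', b', c', d', ha', hb', hc', hd', rfl⟩
    exact ⟨a + a', b + b', c + c', d + d', Fr_add ha ha', Fr_add hb hb', Fr_add hc hc',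
      Fr_add hd hd', by ring⟩
  · intro s c hs
    have h1 := hs k hk
    have h2 := hs (k + 1) (by omega)
    have hF : Fr k (monomial ((s.erase k).erase (k + 1)) c) := by
      refine Fr_monomial ?_ ?_ c
      · simp
      · simp
    rw [monomial_split k s c]
    have h1' : s k = 0 ∨ s k = 1 := by omega
    have h2' : s (k + 1) = 0 ∨ s (k + 1) = 1 := by omega
    rcases h1' with h1' | h1' <;> rcases h2' with h2' | h2' <;> rw [h1', h2']
    · exact ⟨_, 0, 0, 0, hF, Fr_zero k, Fr_zero k, Fr_zero k, by ring⟩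
    · exact ⟨0, 0, _, 0, Fr_zero k, Fr_zero k, hF, Fr_zero k, by ring⟩
    · exact ⟨0, _, 0, 0, Fr_zero k, hF, Fr_zero k, Fr_zero k, by ring⟩
    · exact ⟨0, 0, 0, _, Fr_zero k, Fr_zero k, Fr_zero k, hF, by ring⟩

theorem C_half : (C (1 / 2 : ℚ) : MvPolynomial ℕ ℚ) * 2 = 1 := by
  rw [show (2 : MvPolynomial ℕ ℚ) = C (2 : ℚ) from (map_ofNat C 2).symm, ← map_mul]
  norm_num

/-- S1 -/
theorem swap_op (L : ℕ) (hL : 2 ≤ L) (k : ℕ) (hk : 1 ≤ k) (f : MvPolynomial ℕ ℚ) (hf : ML f) :
    G L (-2) k (pderiv k ((X (k + 1) - X k) * G L (-1 / 2) k f)) =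
      - rename (Equiv.swap k (k + 1)) f := by
  obtain ⟨a, b, c, d, ha, hb, hc, hd, rfl⟩ := Fr_decomp k hk f hf
  have hkk : pderiv k (X k : MvPolynomial ℕ ℚ) = 1 := pderiv_X_self k
  have hqq : pderiv (k + 1) (X (k + 1) : MvPolynomial ℕ ℚ) = 1 := pderiv_X_self (k + 1)
  have hkq : pderiv k (X (k + 1) : MvPolynomial ℕ ℚ) = 0 := pderiv_X_of_ne (by omega)
  have hqk : pderiv (k + 1) (X k : MvPolynomial ℕ ℚ) = 0 := pderiv_X_of_ne (by omega)
  have h2 := C_half
  have hm : (C (-1 / 2 : ℚ) : MvPolynomial ℕ ℚ) = -C (1 / 2 : ℚ) := by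
    rw [← map_neg]; norm_num
  have hm2 : (C (-2 : ℚ) : MvPolynomial ℕ ℚ) = -2 := by
    rw [map_neg, map_ofNat]
  have h32 : (C (-2 * (-2 - 1) / 4 : ℚ) : MvPolynomial ℕ ℚ) = 3 * C (1 / 2 : ℚ) := by
    rw [show (3 : MvPolynomial ℕ ℚ) = C (3 : ℚ) from (map_ofNat C 3).symm, ← map_mul]
    norm_num
  have e1 : pderiv (k + 1) (a + b * X k + c * X (k + 1) + d * (X k * X (k + 1))) =
      c + d * X k := by
    simp only [map_add, Derivation.leibniz, smul_eq_mul, ha.2.1, hb.2.1, hc.2.1, hd.2.1, hqq,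
      hqk]
    ring
  have e2 : pderiv (k + 1) (c + d * X k) = 0 := by
    simp only [map_add, Derivation.leibniz, smul_eq_mul, hc.2.1, hd.2.1, hqk]
    ring
  rw [G_deg2 L hL (-1 / 2) k _ (by rw [e1, e2, map_zero]), e1, e2, hm]
  have e3 : (X (k + 1) - X k) * (a + b * X k + c * X (k + 1) + d * (X k * X (k + 1)) +
      -C (1 / 2 : ℚ) * ((X (k + 1) - X k) * (c + d * X k)) +
      C (-1 / 2 * (-1 / 2 - 1) / 4 : ℚ) * ((X (k + 1) - X k) ^ 2 * 0)) =
      a * (X (k + 1) - X k) + b * (X k * X (k + 1) - X k ^ 2) +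
        C (1 / 2 : ℚ) * (c * (X (k + 1) ^ 2 - X k ^ 2)) +
        C (1 / 2 : ℚ) * (d * (X k * X (k + 1) ^ 2 - X k ^ 3)) := by
    generalize (C (1 / 2 : ℚ) : MvPolynomial ℕ ℚ) = H at h2 ⊢
    linear_combination (-((X (k + 1) - X k) * c * X (k + 1)) -
      ((X (k + 1) - X k) * d * X k * X (k + 1))) * h2
  rw [e3]
  have e4 : pderiv k (a * (X (k + 1) - X k) + b * (X k * X (k + 1) - X k ^ 2) +
        C (1 / 2 : ℚ) * (c * (X (k + 1) ^ 2 - X k ^ 2)) +
        C (1 / 2 : ℚ) * (d * (X k * X (k + 1) ^ 2 - X k ^ 3))) =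
      -a + b * (X (k + 1) - 2 * X k) - c * X k + C (1 / 2 : ℚ) * (d * (X (k + 1) ^ 2 -
        3 * X k ^ 2)) := by
    simp only [map_add, map_sub, Derivation.leibniz, Derivation.leibniz_pow, smul_eq_mul, ha.1,
      hb.1, hc.1, hd.1, hkk, hkq, pderiv_C]
    simp only [nsmul_eq_mul, Nat.cast_ofNat]
    norm_num
    generalize (C (1 / 2 : ℚ) : MvPolynomial ℕ ℚ) = H at h2 ⊢
    linear_combination (-c * X k) * h2
  rw [e4]
  have e5 : pderiv (k + 1) (-a + b * (X (k + 1) - 2 * X k) - c * X k +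
      C (1 / 2 : ℚ) * (d * (X (k + 1) ^ 2 - 3 * X k ^ 2))) = b + d * X (k + 1) := by
    have h20 : pderiv (k + 1) (2 : MvPolynomial ℕ ℚ) = 0 := by
      rw [show (2 : MvPolynomial ℕ ℚ) = C (2 : ℚ) from (map_ofNat C 2).symm, pderiv_C]
    have h30 : pderiv (k + 1) (3 : MvPolynomial ℕ ℚ) = 0 := by
      rw [show (3 : MvPolynomial ℕ ℚ) = C (3 : ℚ) from (map_ofNat C 3).symm, pderiv_C]
    simp only [map_add, map_sub, map_neg, Derivation.leibniz, Derivation.leibniz_pow, smul_eq_mul,
      ha.2.1, hb.2.1, hc.2.1, hd.2.1, hqq, hqk, pderiv_C, h20, h30]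
    simp only [nsmul_eq_mul, Nat.cast_ofNat]
    norm_num
    generalize (C (1 / 2 : ℚ) : MvPolynomial ℕ ℚ) = H at h2 ⊢
    linear_combination (d * X (k + 1)) * h2
  have e6 : pderiv (k + 1) (b + d * X (k + 1)) = d := by
    simp only [map_add, Derivation.leibniz, smul_eq_mul, hb.2.1, hd.2.1, hqq]
    ring
  rw [G_deg2 L hL (-2) k _ (by rw [e5, e6, hd.2.1]), e5, e6, hm2, h32]
  simp only [map_add, map_mul, rename_X, ha.2.2, hb.2.2, hc.2.2, hd.2.2, Equiv.swap_apply_left,
    Equiv.swap_apply_right]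
  generalize (C (1 / 2 : ℚ) : MvPolynomial ℕ ℚ) = H at h2 ⊢
  linear_combination (d * (2 * X (k + 1) ^ 2 - 3 * X k * X (k + 1))) * h2

/-! ### Reflections -/

theorem refl_monomial_zero {p : ℕ} {s : ℕ →₀ ℕ} (h : s p = 0) (c : ℚ) :
    refl p (monomial s c) = monomial s c := by
  rw [refl, aeval_monomial, monomial_eq]
  congr 1
  refine Finsupp.prod_congr fun i hi => ?_
  have : i ≠ p := by
    rintro rfl
    exact (Finsupp.mem_support_iff.1 hi) h
  rw [if_neg this]

theorem monomial_split_one (p : ℕ) (s : ℕ →₀ ℕ) (c : ℚ) :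
    monomial s c = monomial (s.erase p) c * X p ^ s p := by
  rw [X_pow_eq_monomial, monomial_mul, mul_one, Finsupp.erase_add_single]

theorem refl_X (p : ℕ) : refl p (X p) = 2 * X 0 - X p := by
  rw [refl, aeval_X, if_pos rfl]

theorem refl_monomial_one {p : ℕ} {s : ℕ →₀ ℕ} (h : s p = 1) (c : ℚ) :
    refl p (monomial s c) = monomial (s.erase p) c * (2 * X 0 - X p) := by
  rw [monomial_split_one p s c, map_mul, refl_monomial_zero (by simp), h, pow_one, refl_X]

/-- S2 -/
theorem refl_op (L : ℕ) (hL : 2 ≤ L) (f : MvPolynomial ℕ ℚ) (hf : ML f) :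
    G L (-2) 0 f = refl 1 f := by
  have key : pderiv 1 (pderiv 1 f) = 0 ∧ f - 2 * ((X 1 - X 0) * pderiv 1 f) = refl 1 f := by
    refine ML_induction (P := fun f => pderiv 1 (pderiv 1 f) = 0 ∧
      f - 2 * ((X 1 - X 0) * pderiv 1 f) = refl 1 f) ?_ ?_ ?_ f hf
    · simp
    · rintro f g ⟨h1, h2⟩ ⟨h3, h4⟩
      refine ⟨by rw [map_add, map_add, h1, h3, add_zero], ?_⟩
      rw [map_add, map_add, ← h2, ← h4]
      ring
    · intro s c hs
      have h1 := hs 1 le_rfl
      have h1' : s 1 = 0 ∨ s 1 = 1 := by omega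
      rcases h1' with h | h
      · have e : pderiv 1 (monomial s c) = 0 := by rw [pderiv_monomial, h]; simp
        rw [e, refl_monomial_zero h]
        simp
      · have e0 : pderiv 1 (monomial (s.erase 1) c) = 0 := by
          rw [pderiv_monomial, Finsupp.erase_same]; simp
        have e : pderiv 1 (monomial s c) = monomial (s.erase 1) c := by
          rw [monomial_split_one 1 s c, Derivation.leibniz, e0, h, pow_one, pderiv_X_self]
          simp
        rw [e, refl_monomial_one h, monomial_split_one 1 s c, h, e0]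
        refine ⟨rfl, ?_⟩
        ring
  have hD3 : pderiv (0 + 1) (pderiv (0 + 1) (pderiv (0 + 1) f)) = 0 := by
    rw [show (0 + 1 : ℕ) = 1 from rfl, key.1, map_zero]
  rw [G_deg2 L hL (-2) 0 f hD3, ← key.2]
  rw [show (0 + 1 : ℕ) = 1 from rfl, key.1]
  have hm2 : (C (-2 : ℚ) : MvPolynomial ℕ ℚ) = -2 := by
    rw [map_neg, map_ofNat]
  rw [hm2]
  ring

/-- S3 -/
theorem ML_rename (k : ℕ) (hk : 1 ≤ k) (f : MvPolynomial ℕ ℚ) (hf : ML f) :
    ML (rename (Equiv.swap k (k + 1)) f) := by
  refine ML_induction (P := fun f => ML (rename (Equiv.swap k (k + 1)) f)) ?_ ?_ ?_ f hf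
  · rw [map_zero]; exact ML_zero
  · intro f g h1 h2
    rw [map_add]; exact ML_add h1 h2
  · intro s c hs
    rw [rename_monomial]
    refine ML_monomial (fun i hi => ?_) c
    rw [mapDomain_swap_apply]
    apply hs
    rcases eq_or_ne i k with rfl | hik
    · rw [Equiv.swap_apply_left]; omega
    · rcases eq_or_ne i (k + 1) with rfl | hik'
      · rw [Equiv.swap_apply_right]; omega
      · rw [Equiv.swap_apply_of_ne_of_ne hik hik']; exact hi

/-- S4 -/
theorem ML_refl (p : ℕ) (hp : 1 ≤ p) (f : MvPolynomial ℕ ℚ) (hf : ML f) : ML (refl p f) := by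
  refine ML_induction (P := fun f => ML (refl p f)) ?_ ?_ ?_ f hf
  · rw [map_zero]; exact ML_zero
  · intro f g h1 h2
    rw [map_add]; exact ML_add h1 h2
  · intro s c hs
    have h1 := hs p hp
    have h1' : s p = 0 ∨ s p = 1 := by omega
    rcases h1' with h | h
    · rw [refl_monomial_zero h]
      exact ML_monomial hs c
    · rw [refl_monomial_one h]
      have e : monomial (s.erase p) c * (2 * X 0 - X p) =
          monomial (s.erase p + Finsupp.single 0 1) (2 * c) + monomial s (-c) := by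
        have e1 : monomial s (-c) = -(monomial (s.erase p) c * X p) := by
          rw [map_neg]
          conv_lhs => rw [monomial_split_one p s c, h, pow_one]
        have e2 : monomial (s.erase p + Finsupp.single 0 1) (2 * c) =
            2 * (monomial (s.erase p) c * X 0) := by
          rw [show (2 : MvPolynomial ℕ ℚ) = C (2 : ℚ) from (map_ofNat C 2).symm, X,
            monomial_mul, C_mul_monomial, mul_one]
        rw [e1, e2]
        ring
      rw [e]
      refine ML_add (ML_monomial (fun i hi => ?_) _) (ML_monomial hs _)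
      rw [Finsupp.add_apply, Finsupp.single_apply, if_neg (by omega), add_zero,
        Finsupp.erase_apply]
      split_ifs
      · omega
      · exact hs i hi

/-- S5 -/
theorem ML_pderiv (f : MvPolynomial ℕ ℚ) (hf : ML f) : ML (pderiv 0 f) := by
  refine ML_induction (P := fun f => ML (pderiv 0 f)) ?_ ?_ ?_ f hf
  · rw [map_zero]; exact ML_zero
  · intro f g h1 h2
    rw [map_add]; exact ML_add h1 h2
  · intro s c hs
    rw [pderiv_monomial]
    refine ML_monomial (fun i hi => ?_) _
    rw [Finsupp.tsub_apply]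
    exact le_trans (Nat.sub_le _ _) (hs i hi)

/-- S6 -/
theorem refl_conj (p : ℕ) (hp : 1 ≤ p) (f : MvPolynomial ℕ ℚ) :
    rename (Equiv.swap p (p + 1)) (refl p (rename (Equiv.swap p (p + 1)) f)) =
      refl (p + 1) f := by
  have h : ((rename (Equiv.swap p (p + 1))).comp (refl p)).comp
      (rename (Equiv.swap p (p + 1))) = refl (p + 1) := by
    refine algHom_ext fun i => ?_
    have h0 : Equiv.swap p (p + 1) 0 = 0 :=
      Equiv.swap_apply_of_ne_of_ne (by omega) (by omega)
    simp only [AlgHom.comp_apply, rename_X, refl, aeval_X]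
    rcases eq_or_ne i p with rfl | hik
    · rw [Equiv.swap_apply_left, if_neg (by omega), if_neg (by omega), rename_X,
        Equiv.swap_apply_right]
    · rcases eq_or_ne i (p + 1) with rfl | hik'
      · rw [Equiv.swap_apply_right, if_pos rfl, if_pos rfl, map_sub, map_mul, rename_X, rename_X,
          h0, Equiv.swap_apply_left, map_ofNat]
      · rw [Equiv.swap_apply_of_ne_of_ne hik hik', if_neg hik, if_neg hik', rename_X,
          Equiv.swap_apply_of_ne_of_ne hik hik']
  have := congrArg (fun φ => φ f) h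
  simpa only [AlgHom.comp_apply] using this

end Pool.Agent.H609R2.Line
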